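import Pool.Agent.H549R2.Convex3

/-!
# Tournaments: Hamiltonian paths, Hamiltonian cycles, minimal feedback arc sets
-/

namespace Pool.Agent.H549R2.TO

open Pool.Agent.H549R2.Convex Polynomial

/-- `A` (a list of rows) is the adjacency matrix of a tournament on `0, ..., A.length - 1`. -/
def IsTour (A : List (List Bool)) : Prop :=
  (∀ r ∈ A, r.length = A.length) ∧
    ∀ i < A.length, ∀ j < A.length, (ent A i j = true ↔ i ≠ j ∧ ent A j i = false)

/-- The vertices split into `0, ..., p - 1` and the others, and both parts are transitive
tournaments, with all arcs from smaller to larger numbers. -/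
def TwoChain (A : List (List Bool)) : Prop :=
  ∃ p ≤ A.length, (∀ i j, i < j → j < p → ent A i j = true) ∧
    (∀ i j, p ≤ i → i < j → j < A.length → ent A i j = true)

/-- the number of Hamiltonian paths -/
noncomputable def hp (A : List (List Bool)) : ℕ :=
  Nat.card {l : List ℕ // l.Perm (List.range A.length) ∧ l.IsChain (fun i j => ent A i j = true)}

/-- the number of Hamiltonian cycles (each one is listed from vertex `0`) -/
noncomputable def hc (A : List (List Bool)) : ℕ :=
  Nat.card {l : List ℕ // l.Perm (List.range A.length) ∧ l.IsChain (fun i j => ent A i j = true) ∧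
    l.head? = some 0 ∧ ∃ v, l.getLast? = some v ∧ ent A v 0 = true}

/-- the arcs -/
def arcs (A : List (List Bool)) : Finset (ℕ × ℕ) :=
  (Finset.range A.length ×ˢ Finset.range A.length).filter (fun p => ent A p.1 p.2 = true)

/-- no directed cycle -/
def Acyc (E : Finset (ℕ × ℕ)) : Prop := ∀ v, ¬ Relation.TransGen (fun a b => (a, b) ∈ E) v v

/-- feedback arc sets -/
def IsFAS (A : List (List Bool)) (S : Finset (ℕ × ℕ)) : Prop := S ⊆ arcs A ∧ Acyc (arcs A \ S)

/-- the number of inclusion-minimal feedback arc sets -/
noncomputable def mf (A : List (List Bool)) : ℕ :=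
  Nat.card {S : Finset (ℕ × ℕ) // IsFAS A S ∧ ∀ S', S' ⊂ S → ¬ IsFAS A S'}

section Abstract

/-- evaluation of exponential sums -/
noncomputable def Ev (j : ℕ) (p : ℤ[X]) : ℤ := p.sum fun a c => c * (a : ℤ) ^ j

/-- the polynomial of a gap -/
noncomputable def gapP (allowed good : Bool) : ℤ[X] :=
  (if allowed then X else 1) - (if good then 0 else 1)

variable {α : Type}

/-- adjacency: the elements `inr` form a chain, `px a` tells whether `a` has an arc to them, `py a`
whether they have an arc to `a`, and `r` is the relation on the other elements -/
def RR (r : α → α → Bool) (px py : α → Bool) : α ⊕ ℕ → α ⊕ ℕ → Bool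
  | .inl a, .inl b => r a b
  | .inl a, .inr _ => px a
  | .inr _, .inl b => py b
  | .inr i, .inr j => decide (i < j)

/-- the product of the polynomials of the gaps of a list -/
noncomputable def PP (r : α → α → Bool) (px py : α → Bool) : Bool → (α → Bool) → List α → ℤ[X]
  | pa, _, [] => gapP pa true
  | pa, ra, b :: vs => gapP (pa && py b) (ra b) * PP r px py (px b) (r b) vs

/-- condition on the first element -/
def First (pa : Bool) (ra : α → Bool) : List (α ⊕ ℕ) → Prop
  | [] => True
  | .inl b :: _ => ra b = true
  | .inr _ :: _ => pa = true

end Abstract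

section Concrete

/-- relation on the `x` (`inl`) and `y` (`inr`) -/
def rB (B : List (List Bool)) : ℕ ⊕ ℕ → ℕ ⊕ ℕ → Bool
  | .inl i, .inl j => decide (i < j)
  | .inr i, .inr j => decide (i < j)
  | .inl i, .inr j => !(ent B j i)
  | .inr j, .inl i => ent B j i

/-- is it an `x`? -/
def isX : ℕ ⊕ ℕ → Bool
  | .inl _ => true
  | .inr _ => false

/-- is it an `y`? -/
def isY : ℕ ⊕ ℕ → Bool
  | .inl _ => false
  | .inr _ => true

/-- the list of all `x` and `y` -/
def base (n : ℕ) : List (ℕ ⊕ ℕ) := (List.range n).map .inl ++ (List.range n).map .inr

/-- `v` is a list `y x y x ...` with arcs from each `y` to the next `x` -/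
def altB (B : List (List Bool)) : List (ℕ ⊕ ℕ) → Bool
  | [] => true
  | .inr j :: .inl i :: v => ent B j i && altB B v
  | _ => false

/-- arcs of the tournament for `i < j`: vertices `x_i = i`, `s_i = n + i`, `y_j = n + m + j` -/
def upT (B : List (List Bool)) (m i j : ℕ) : Bool :=
  if i < B.length ∧ B.length + m ≤ j then !(ent B (j - (B.length + m)) i) else true

/-- arcs of the tournament -/
def entT (B : List (List Bool)) (m i j : ℕ) : Bool :=
  if i < j then upT B m i j else if j < i then !(upT B m j i) else false

/-- a matrix from its entries -/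
def mat (N : ℕ) (f : ℕ → ℕ → Bool) : List (List Bool) :=
  (List.range N).map (fun i => (List.range N).map (fun j => f i j))

/-- the tournament with `m` vertices `s` -/
def TT (B : List (List Bool)) (m : ℕ) : List (List Bool) := mat (2 * B.length + m) (entT B m)

/-- the number of vertices of the tournament plus two, arcs for `i < j` -/
def upC (A : List (List Bool)) (i j : ℕ) : Bool :=
  if j = A.length + 1 then decide (i ≠ 0) else if i = 0 then true else ent A (i - 1) (j - 1)

/-- arcs of the tournament with two more vertices -/
def entC (A : List (List Bool)) (i j : ℕ) : Bool :=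
  if i < j then upC A i j else if j < i then !(upC A j i) else false

/-- the tournament with two more vertices: `0` before all and `A.length + 1` after all vertices
of `A`, with an arc from the last to the first -/
def TC (A : List (List Bool)) : List (List Bool) := mat (A.length + 2) (entC A)

/-- unsigned Stirling numbers of the first kind, read off from the digits of a product -/
def cc (K m : ℕ) : ℕ :=
  (((List.range K).map (fun i => 2 ^ (K * K) + i)).prod / 2 ^ (K * K * m)) % 2 ^ (K * K)

/-- the combination of the answers: even and odd part -/
def hsum (K : ℕ) (h : ℕ → ℕ) (b : ℕ) : ℕ :=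
  ((List.range (K + 1)).map (fun m => if (K - m) % 2 = b then cc K m * h m else 0)).sum

end Concrete

end Pool.Agent.H549R2.TO
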