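import Pool.Agent.H549R2.TO.T3b

namespace Pool.Agent.H549R2.TO

variable {α : Type} [DecidableEq α]

omit [DecidableEq α] in
theorem VT4_left (L : List α) (R : List ℕ) :
    (L.map (Sum.inl : α → α ⊕ ℕ) ++ R.map Sum.inr).filterMap Sum.getLeft? = L := by
  induction L with
  | nil =>
    induction R with
    | nil => rfl
    | cons b R ih => exact ih
  | cons a L ih => simpa using ih

omit [DecidableEq α] in
theorem VT4_right (L : List α) (R : List ℕ) :
    (L.map (Sum.inl : α → α ⊕ ℕ) ++ R.map Sum.inr).filterMap Sum.getRight? = R := by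
  induction L with
  | nil =>
    induction R with
    | nil => rfl
    | cons b R ih => simpa using ih
  | cons a L ih => exact ih

omit [DecidableEq α] in
theorem VT4_split (l : List (α ⊕ ℕ)) :
    l.Perm ((l.filterMap Sum.getLeft?).map Sum.inl ++ (l.filterMap Sum.getRight?).map Sum.inr) := by
  induction l with
  | nil => exact List.Perm.refl _
  | cons a l ih =>
    rcases a with a | i
    · exact List.Perm.cons _ ih
    · exact (List.Perm.cons _ ih).trans List.perm_middle.symm

omit [DecidableEq α] in
theorem VT4_perm (l : List (α ⊕ ℕ)) (L : List α) (R : List ℕ) :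
    l.Perm (L.map Sum.inl ++ R.map Sum.inr) ↔
      (l.filterMap Sum.getLeft?).Perm L ∧ (l.filterMap Sum.getRight?).Perm R := by
  constructor
  · intro h
    have h1 := h.filterMap Sum.getLeft?
    have h2 := h.filterMap Sum.getRight?
    rw [VT4_left] at h1
    rw [VT4_right] at h2
    exact ⟨h1, h2⟩
  · rintro ⟨h1, h2⟩
    exact (VT4_split l).trans ((h1.map _).append (h2.map _))

theorem VT4_range (l : List ℕ) (m : ℕ) :
    l.Perm (List.range m) ↔ l.Nodup ∧ l.toFinset = Finset.range m := by
  constructor
  · intro h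
    refine ⟨h.nodup_iff.mpr List.nodup_range, ?_⟩
    ext i
    rw [List.mem_toFinset, h.mem_iff, List.mem_range, Finset.mem_range]
  · rintro ⟨h1, h2⟩
    rw [List.perm_ext_iff_of_nodup h1 List.nodup_range]
    intro i
    rw [← List.mem_toFinset, h2, List.mem_range, Finset.mem_range]

omit [DecidableEq α] in
theorem VT4_first (l : List (α ⊕ ℕ)) : First true (fun _ => true) l := by
  rcases l with _ | ⟨a, l⟩
  · trivial
  · rcases a with a | i
    · rfl
    · rfl

theorem card_total (r : α → α → Bool) (px py : α → Bool) (L : List α) (m : ℕ) :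
    ((Nat.card {l : List (α ⊕ ℕ) // l.Perm (L.map Sum.inl ++ (List.range m).map Sum.inr) ∧
      l.IsChain (fun u v => RR r px py u v = true)} : ℕ) : ℤ) =
      ∑ v ∈ L.permutations.toFinset, Ev m (PP r px py true (fun _ => true) v) := by
  have hmem : ∀ v : List α, v ∈ L.permutations.toFinset ↔ v.Perm L := fun v => by
    rw [List.mem_toFinset, List.mem_permutations]
  have e : {l : List (α ⊕ ℕ) // l.Perm (L.map Sum.inl ++ (List.range m).map Sum.inr) ∧
      l.IsChain (fun u v => RR r px py u v = true)} ≃
      (Σ v : {v // v ∈ L.permutations.toFinset},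
        {l : List (α ⊕ ℕ) // Ins r px py true (fun _ => true) v.1 (Finset.range m) l}) :=
    { toFun := fun l => ⟨⟨l.1.filterMap Sum.getLeft?,
          (hmem _).mpr ((VT4_perm _ _ _).mp l.2.1).1⟩, ⟨l.1, rfl,
          ((VT4_range _ _).mp ((VT4_perm _ _ _).mp l.2.1).2).1,
          ((VT4_range _ _).mp ((VT4_perm _ _ _).mp l.2.1).2).2, VT4_first _, l.2.2⟩⟩
      invFun := fun x => ⟨x.2.1, (VT4_perm _ _ _).mpr ⟨by
          rw [x.2.2.1]; exact (hmem _).mp x.1.2,
          (VT4_range _ _).mpr ⟨x.2.2.2.1, x.2.2.2.2.1⟩⟩, x.2.2.2.2.2.2⟩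
      left_inv := fun l => rfl
      right_inv := by
        rintro ⟨⟨v, hv⟩, ⟨l, hl⟩⟩
        have hl1 : l.filterMap Sum.getLeft? = v := hl.1
        subst hl1
        rfl }
  have hfin : ∀ v : {v // v ∈ L.permutations.toFinset},
      Finite {l : List (α ⊕ ℕ) // Ins r px py true (fun _ => true) v.1 (Finset.range m) l} :=
    fun v => ins_finite r px py true (fun _ => true) v.1 (Finset.range m)
  rw [Nat.card_congr e, Nat.card_sigma, Nat.cast_sum,
    ← Finset.sum_coe_sort L.permutations.toFinset
      (fun v => Ev m (PP r px py true (fun _ => true) v))]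
  apply Finset.sum_congr rfl
  intro v _
  rw [card_ins, Finset.card_range]

end Pool.Agent.H549R2.TO
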