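import Pool.Agent.H549R2.TO.Defs

namespace Pool.Agent.H549R2.TO

open Polynomial
open Pool.Agent.H549R2.Convex (ent)

theorem t5a_gap_false (g : Bool) : gapP false g = if g then 1 else 0 := by
  cases g <;> simp [gapP]

theorem t5a_gap_true (g : Bool) : gapP true g = X - C (if g then 0 else 1) := by
  cases g <;> simp [gapP]

theorem t5a_gap_deg (p g : Bool) : (gapP p g).natDegree ≤ 1 := by
  cases p
  · rw [t5a_gap_false]
    cases g <;> simp
  · rw [t5a_gap_true]
    exact (natDegree_X_sub_C_le _)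

theorem t5a_ny_inl (x : ℕ) (vs : List (ℕ ⊕ ℕ)) :
    ((Sum.inl x :: vs).filter isY).length = (vs.filter isY).length := rfl

theorem t5a_ny_inr (y : ℕ) (vs : List (ℕ ⊕ ℕ)) :
    ((Sum.inr y :: vs).filter isY).length = (vs.filter isY).length + 1 := rfl

theorem t5a_nx_inl (x : ℕ) (vs : List (ℕ ⊕ ℕ)) :
    ((Sum.inl x :: vs).filter isX).length = (vs.filter isX).length + 1 := rfl

theorem t5a_nx_inr (y : ℕ) (vs : List (ℕ ⊕ ℕ)) :
    ((Sum.inr y :: vs).filter isX).length = (vs.filter isX).length := rfl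

theorem t5a_inl (B : List (List Bool)) (pa : Bool) (ra : ℕ ⊕ ℕ → Bool) (x : ℕ)
    (vs : List (ℕ ⊕ ℕ)) : PP (rB B) isX isY pa ra (Sum.inl x :: vs) =
      (if ra (Sum.inl x) then 1 else 0) * PP (rB B) isX isY true (rB B (Sum.inl x)) vs := by
  rw [← t5a_gap_false]
  show gapP (pa && false) (ra (Sum.inl x)) * _ = _
  rw [Bool.and_false]
  rfl

theorem t5a_inr (B : List (List Bool)) (pa : Bool) (ra : ℕ ⊕ ℕ → Bool) (y : ℕ)
    (vs : List (ℕ ⊕ ℕ)) : PP (rB B) isX isY pa ra (Sum.inr y :: vs) =
      gapP pa (ra (Sum.inr y)) * PP (rB B) isX isY false (rB B (Sum.inr y)) vs := by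
  show gapP (pa && true) (ra (Sum.inr y)) * _ = _
  rw [Bool.and_true]
  rfl

theorem PP_natDegree (B : List (List Bool)) (v : List (ℕ ⊕ ℕ)) (pa : Bool) (ra : ℕ ⊕ ℕ → Bool) :
    (PP (rB B) isX isY pa ra v).natDegree ≤ (v.filter isY).length + 1 := by
  induction v generalizing pa ra with
  | nil => exact t5a_gap_deg pa true
  | cons b vs ih =>
    rcases b with x | y
    · rw [t5a_inl, t5a_ny_inl]
      split_ifs
      · rw [one_mul]; exact ih _ _
      · rw [zero_mul]; simp
    · rw [t5a_inr, t5a_ny_inr]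
      refine natDegree_mul_le.trans ?_
      have h1 := t5a_gap_deg pa (ra (Sum.inr y))
      have h2 := ih false (rB B (Sum.inr y))
      omega

theorem t5a_cinl (B : List (List Bool)) (pa : Bool) (ra : ℕ ⊕ ℕ → Bool) (x : ℕ)
    (vs : List (ℕ ⊕ ℕ)) (k : ℕ) : (PP (rB B) isX isY pa ra (Sum.inl x :: vs)).coeff k =
      if ra (Sum.inl x) then (PP (rB B) isX isY true (rB B (Sum.inl x)) vs).coeff k else 0 := by
  rw [t5a_inl]
  split_ifs <;> simp

theorem t5a_cinr_true (B : List (List Bool)) (ra : ℕ ⊕ ℕ → Bool) (y : ℕ)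
    (vs : List (ℕ ⊕ ℕ)) :
    (PP (rB B) isX isY true ra (Sum.inr y :: vs)).coeff ((vs.filter isY).length + 1 + 1) =
      (PP (rB B) isX isY false (rB B (Sum.inr y)) vs).coeff ((vs.filter isY).length + 1) := by
  rw [t5a_inr, t5a_gap_true, sub_mul, coeff_sub, coeff_X_mul, coeff_C_mul,
    coeff_eq_zero_of_natDegree_lt (n := (vs.filter isY).length + 1 + 1), mul_zero, sub_zero]
  have := PP_natDegree B vs false (rB B (Sum.inr y))
  omega

theorem t5a_cinr_false (B : List (List Bool)) (ra : ℕ ⊕ ℕ → Bool) (y : ℕ)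
    (vs : List (ℕ ⊕ ℕ)) :
    (PP (rB B) isX isY false ra (Sum.inr y :: vs)).coeff ((vs.filter isY).length + 1 + 1) = 0 := by
  rw [t5a_inr, t5a_gap_false]
  have h1 := PP_natDegree B vs false (rB B (Sum.inr y))
  split_ifs
  · rw [one_mul]
    apply coeff_eq_zero_of_natDegree_lt
    omega
  · simp

theorem t5a_ne (B : List (List Bool)) (v : List (ℕ ⊕ ℕ)) (ra : ℕ ⊕ ℕ → Bool) :
    ((PP (rB B) isX isY true ra v).coeff ((v.filter isY).length + 1) ≠ 0 →
      (v.filter isY).length ≤ (v.filter isX).length) ∧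
    ((PP (rB B) isX isY false ra v).coeff ((v.filter isY).length + 1) ≠ 0 →
      (v.filter isY).length + 1 ≤ (v.filter isX).length) := by
  induction v generalizing ra with
  | nil =>
    constructor
    · intro _
      exact le_rfl
    · intro h
      exfalso
      apply h
      show (gapP false true).coeff 1 = 0
      rw [t5a_gap_false]
      simp [coeff_one]
  | cons b vs ih =>
    rcases b with x | y
    · have key : ∀ pa : Bool, (PP (rB B) isX isY pa ra (Sum.inl x :: vs)).coeff
          (((Sum.inl x :: vs).filter isY).length + 1) ≠ 0 →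
          ((Sum.inl x :: vs).filter isY).length + 1 ≤ ((Sum.inl x :: vs).filter isX).length := by
        intro pa h
        rw [t5a_ny_inl] at h ⊢
        rw [t5a_nx_inl]
        rw [t5a_cinl] at h
        by_cases hr : ra (Sum.inl x) = true
        · rw [if_pos hr] at h
          have := (ih (rB B (Sum.inl x))).1 h
          omega
        · rw [if_neg hr] at h
          exact absurd rfl h
      exact ⟨fun h => (Nat.le_succ _).trans (key true h), key false⟩
    · constructor
      · intro h
        rw [t5a_ny_inr] at h ⊢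
        rw [t5a_nx_inr]
        rw [t5a_cinr_true] at h
        exact (ih _).2 h
      · intro h
        rw [t5a_ny_inr] at h
        exact absurd (t5a_cinr_false B ra y vs) h

theorem PP_coeff (B : List (List Bool)) (v : List (ℕ ⊕ ℕ)) (ra : ℕ ⊕ ℕ → Bool)
    (hv : (v.filter isX).length ≤ (v.filter isY).length) :
    (PP (rB B) isX isY true ra v).coeff ((v.filter isY).length + 1) =
      if altB B v = true then 1 else 0 := by
  match v, hv with
  | [], _ =>
    show (gapP true true).coeff 1 = if true = true then 1 else 0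
    rw [t5a_gap_true]
    simp
  | Sum.inl x :: vs, hv =>
    rw [t5a_ny_inl, t5a_nx_inl] at hv
    have h0 : altB B (Sum.inl x :: vs) = false := by simp [altB]
    rw [h0, t5a_ny_inl, t5a_cinl]
    simp only [Bool.false_eq_true, if_false, ite_eq_right_iff]
    intro _
    by_contra hne
    have := (t5a_ne B vs (rB B (Sum.inl x))).1 hne
    omega
  | [Sum.inr y], _ =>
    have h0 : altB B [Sum.inr y] = false := by simp [altB]
    rw [h0, t5a_ny_inr, t5a_cinr_true]
    show (gapP false true).coeff 1 = if false = true then 1 else 0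
    rw [t5a_gap_false]
    simp [coeff_one]
  | Sum.inr y :: Sum.inr y' :: vs, _ =>
    have h0 : altB B (Sum.inr y :: Sum.inr y' :: vs) = false := by simp [altB]
    rw [h0, t5a_ny_inr, t5a_cinr_true, t5a_ny_inr, t5a_cinr_false]
    simp
  | Sum.inr y :: Sum.inl x :: vs, hv =>
    rw [t5a_ny_inr, t5a_nx_inr, t5a_ny_inl, t5a_nx_inl] at hv
    have h0 : altB B (Sum.inr y :: Sum.inl x :: vs) = (ent B y x && altB B vs) := by simp [altB]
    rw [h0, t5a_ny_inr, t5a_cinr_true, t5a_ny_inl, t5a_cinl]
    have h1 : rB B (Sum.inr y) (Sum.inl x) = ent B y x := rfl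
    rw [h1, PP_coeff B vs (rB B (Sum.inl x)) (by omega)]
    cases ent B y x <;> simp

end Pool.Agent.H549R2.TO
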