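import Pool.Agent.H549R2.TO.Defs

namespace Pool.Agent.H549R2.TO

open Pool.Agent.H549R2.Convex

/-- the list `y x y x ...` of a list of pairs -/
def zl {α : Type} (f g : α → ℕ) (l : List α) : List (ℕ ⊕ ℕ) :=
  l.flatMap (fun k => [Sum.inr (f k), Sum.inl (g k)])

theorem zl_cons {α : Type} (f g : α → ℕ) (a : α) (l : List α) :
    zl f g (a :: l) = Sum.inr (f a) :: Sum.inl (g a) :: zl f g l := by
  simp [zl]

theorem zl_perm {α : Type} (f g : α → ℕ) (l : List α) :
    (zl f g l).Perm ((l.map g).map Sum.inl ++ (l.map f).map Sum.inr) := by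
  induction l with
  | nil => simp [zl]
  | cons a l ih =>
    rw [zl_cons, List.map_cons, List.map_cons, List.map_cons, List.map_cons, List.cons_append]
    refine (List.Perm.swap _ _ _).trans (List.Perm.cons _ ?_)
    exact (List.Perm.cons _ ih).trans List.perm_middle.symm

theorem zl_alt {α : Type} (B : List (List Bool)) (f g : α → ℕ) (l : List α) :
    altB B (zl f g l) = true ↔ ∀ k ∈ l, ent B (f k) (g k) = true := by
  induction l with
  | nil => simp [zl, altB]
  | cons a l ih => rw [zl_cons, altB, Bool.and_eq_true, ih]; simp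

theorem zl_inj {α : Type} (f g f' g' : α → ℕ) (l : List α) (h : zl f g l = zl f' g' l) :
    ∀ k ∈ l, f k = f' k ∧ g k = g' k := by
  induction l with
  | nil => simp
  | cons a l ih =>
    rw [zl_cons, zl_cons, List.cons.injEq, List.cons.injEq] at h
    obtain ⟨h1, h2, h3⟩ := h
    intro k hk
    rw [List.mem_cons] at hk
    rcases hk with rfl | hk
    · exact ⟨Sum.inr.inj h1, Sum.inl.inj h2⟩
    · exact ih h3 k hk

theorem alt_zl (B : List (List Bool)) (v : List (ℕ ⊕ ℕ)) (h : altB B v = true) :
    ∃ ps : List (ℕ × ℕ), v = zl Prod.fst Prod.snd ps := by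
  fun_induction altB B v with
  | case1 => exact ⟨[], by simp [zl]⟩
  | case2 j i v ih =>
    rw [Bool.and_eq_true] at h
    obtain ⟨ps, hps⟩ := ih h.2
    exact ⟨(j, i) :: ps, by rw [zl_cons, ← hps]⟩
  | case3 v => simp at h

theorem fm_r (l1 l2 : List ℕ) : (l1.map (Sum.inl : ℕ → ℕ ⊕ ℕ) ++ l2.map Sum.inr).filterMap
    Sum.getRight? = l2 := by
  rw [List.filterMap_append, List.filterMap_map, List.filterMap_map]
  have h1 : (Sum.getRight? ∘ (Sum.inl : ℕ → ℕ ⊕ ℕ)) = fun _ => none := by ext; simp
  have h2 : (Sum.getRight? ∘ (Sum.inr : ℕ → ℕ ⊕ ℕ)) = some := by ext; simp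
  rw [h1, h2, List.filterMap_some]
  simp

theorem fm_l (l1 l2 : List ℕ) : (l1.map (Sum.inl : ℕ → ℕ ⊕ ℕ) ++ l2.map Sum.inr).filterMap
    Sum.getLeft? = l1 := by
  rw [List.filterMap_append, List.filterMap_map, List.filterMap_map]
  have h1 : (Sum.getLeft? ∘ (Sum.inl : ℕ → ℕ ⊕ ℕ)) = some := by ext; simp
  have h2 : (Sum.getLeft? ∘ (Sum.inr : ℕ → ℕ ⊕ ℕ)) = fun _ => none := by ext; simp
  rw [h1, h2, List.filterMap_some]
  simp

theorem perm_of_list (n : ℕ) (l : List ℕ) (h : l.Perm (List.range n)) :
    ∃ (p : Equiv.Perm (Fin n)), ∀ k : Fin n, l.getD k.val 0 = (p k).val := by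
  have hlen : l.length = n := by rw [h.length_eq, List.length_range]
  have hnd : l.Nodup := h.nodup_iff.mpr List.nodup_range
  have hlt : ∀ k : Fin n, l.getD k.val 0 < n := by
    intro k
    rw [List.getD_eq_getElem l 0 (by rw [hlen]; exact k.2)]
    exact List.mem_range.mp (h.mem_iff.mp (List.getElem_mem _))
  have hinj : Function.Injective (fun k : Fin n => (⟨l.getD k.val 0, hlt k⟩ : Fin n)) := by
    intro a b hab
    have h1 : l.getD a.val 0 = l.getD b.val 0 := congrArg Fin.val hab
    rw [List.getD_eq_getElem l 0 (by rw [hlen]; exact a.2),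
      List.getD_eq_getElem l 0 (by rw [hlen]; exact b.2)] at h1
    exact Fin.ext ((hnd.getElem_inj_iff).mp h1)
  exact ⟨Equiv.ofBijective _ (Finite.injective_iff_bijective.mp hinj), fun k => rfl⟩

theorem zl_getD (n : ℕ) (ps : List (ℕ × ℕ)) (h : ps.length = n) :
    zl Prod.fst Prod.snd ps = zl (fun k : Fin n => (ps.map Prod.fst).getD k.val 0)
      (fun k : Fin n => (ps.map Prod.snd).getD k.val 0) (List.finRange n) := by
  subst h
  have h1 : ps = (List.finRange ps.length).map (fun k => ps[k.val]) := by
    refine List.ext_getElem (by simp) fun i h1 h2 => ?_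
    simp
  have h2 : zl Prod.fst Prod.snd ((List.finRange ps.length).map (fun k => ps[k.val])) =
      zl (fun k : Fin ps.length => (ps.map Prod.fst).getD k.val 0)
      (fun k : Fin ps.length => (ps.map Prod.snd).getD k.val 0) (List.finRange ps.length) := by
    rw [zl, zl, List.flatMap_map]
    refine List.flatMap_congr fun k _ => ?_
    rw [List.getD_eq_getElem _ _ (by simp), List.getD_eq_getElem _ _ (by simp)]
    simp
  rw [← h1] at h2
  exact h2

theorem card_alt (B : List (List Bool)) (h : ∀ r ∈ B, r.length = B.length) :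
    ((base B.length).permutations.toFinset.filter (fun v => altB B v = true)).card =
      B.length.factorial * F B := by
  set n := B.length with hn
  set L : Equiv.Perm (Fin n) × Equiv.Perm (Fin n) → List (ℕ ⊕ ℕ) := fun x =>
    zl (fun k : Fin n => (x.1 k).val) (fun k : Fin n => (x.2 k).val) (List.finRange n) with hL
  have hLinj : Function.Injective L := by
    intro x y hxy
    have h1 := zl_inj _ _ _ _ _ hxy
    refine Prod.ext (Equiv.ext fun k => Fin.ext (h1 k (List.mem_finRange k)).1)
      (Equiv.ext fun k => Fin.ext (h1 k (List.mem_finRange k)).2)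
  have hmap : ∀ p : Equiv.Perm (Fin n), ((List.finRange n).map (fun k => (p k).val)).Perm
      (List.range n) := by
    intro p
    have h1 : ((List.finRange n).map p).Perm (List.finRange n) := Equiv.Perm.map_finRange_perm p
    have h2 := h1.map Fin.val
    rw [List.map_map, List.map_coe_finRange_eq_range] at h2
    exact h2
  have himg : (base n).permutations.toFinset.filter (fun v => altB B v = true) =
      (Finset.univ.filter (fun x : Equiv.Perm (Fin n) × Equiv.Perm (Fin n) =>
        ∀ k, ent B (x.1 k).val (x.2 k).val = true)).image L := by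
    ext v
    simp only [Finset.mem_filter, List.mem_toFinset, List.mem_permutations, Finset.mem_image,
      Finset.mem_univ, true_and]
    constructor
    · rintro ⟨hv, ha⟩
      obtain ⟨ps, rfl⟩ := alt_zl B v ha
      have hp := (zl_perm Prod.fst Prod.snd ps).symm.trans hv
      rw [base] at hp
      have h1 := hp.filterMap Sum.getRight?
      have h2 := hp.filterMap Sum.getLeft?
      rw [fm_r, fm_r] at h1
      rw [fm_l, fm_l] at h2
      obtain ⟨p, hp1⟩ := perm_of_list n _ h1
      obtain ⟨q, hq1⟩ := perm_of_list n _ h2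
      have hlen : ps.length = n := by
        have := h1.length_eq
        simpa using this
      have h3 := zl_getD n ps hlen
      have h4 : zl Prod.fst Prod.snd ps = L (p, q) := by
        rw [h3]
        simp only [hL]
        congr 1
        · funext k; exact hp1 k
        · funext k; exact hq1 k
      refine ⟨(p, q), ?_, h4.symm⟩
      rw [h4] at ha
      simp only [hL] at ha
      rw [zl_alt] at ha
      exact fun k => ha k (List.mem_finRange k)
    · rintro ⟨⟨p, q⟩, hpq, rfl⟩
      refine ⟨?_, ?_⟩
      · refine (zl_perm _ _ _).trans ?_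
        rw [base]
        exact ((hmap q).map _).append ((hmap p).map _)
      · simp only [hL]
        rw [zl_alt]
        exact fun k _ => hpq k
  rw [himg, Finset.card_image_of_injective _ hLinj, F_eq_card' B h n rfl]
  have h5 : (Finset.univ.filter (fun x : Equiv.Perm (Fin n) × Equiv.Perm (Fin n) =>
        ∀ k, ent B (x.1 k).val (x.2 k).val = true)).card =
      ((Finset.univ : Finset (Equiv.Perm (Fin n))) ×ˢ Finset.univ.filter (fun σ : Equiv.Perm (Fin n) =>
        ∀ i, ent B i.val (σ i).val = true)).card := by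
    refine Finset.card_bij (fun x _ => (x.1, x.2 * x.1⁻¹)) ?_ ?_ ?_
    · rintro ⟨p, q⟩ hx
      simp only [Finset.mem_filter, Finset.mem_univ, true_and, Finset.mem_product] at hx ⊢
      intro i
      have := hx (p⁻¹ i)
      simpa using this
    · rintro ⟨p, q⟩ _ ⟨p', q'⟩ _ hxy
      simp only [Prod.mk.injEq] at hxy
      obtain ⟨h6, h7⟩ := hxy
      subst h6
      rw [mul_left_inj] at h7
      rw [h7]
    · rintro ⟨p, σ⟩ hx
      simp only [Finset.mem_filter, Finset.mem_univ, true_and, Finset.mem_product] at hx
      refine ⟨(p, σ * p), ?_, by simp⟩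
      simp only [Finset.mem_filter, Finset.mem_univ, true_and]
      intro k
      exact hx (p k)
  rw [h5, Finset.card_product, Finset.card_univ, Fintype.card_perm, Fintype.card_fin]

end Pool.Agent.H549R2.TO
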