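import Pool.Agent.H549R2.TO.Defs

namespace Pool.Agent.H549R2.TO

open Pool.Agent.H549R2.Convex

theorem length_mat (N : ℕ) (f : ℕ → ℕ → Bool) : (mat N f).length = N := by
  simp [mat]

theorem ent_mat (N : ℕ) (f : ℕ → ℕ → Bool) (i j : ℕ) :
    ent (mat N f) i j = (decide (i < N) && decide (j < N) && f i j) := by
  unfold ent mat
  by_cases hi : i < N
  · have h1 : ((List.range N).map (fun i => (List.range N).map (fun j => f i j))).getD i [] =
        (List.range N).map (fun j => f i j) := by
      rw [List.getD_eq_getElem _ _ (by simpa using hi)]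
      simp
    rw [h1]
    by_cases hj : j < N
    · rw [List.getD_eq_getElem _ _ (by simpa using hj)]
      simp [hi, hj]
    · rw [List.getD_eq_default _ _ (by simpa using hj)]
      simp [hj]
  · have h1 : ((List.range N).map (fun i => (List.range N).map (fun j => f i j))).getD i [] =
        [] := by
      rw [List.getD_eq_default _ _ (by simpa using hi)]
    rw [h1]
    simp [hi]

theorem isTour_TT (B : List (List Bool)) (m : ℕ) : IsTour (TT B m) := by
  unfold TT
  constructor
  · intro r hr
    rw [length_mat]
    unfold mat at hr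
    rw [List.mem_map] at hr
    obtain ⟨i, -, rfl⟩ := hr
    simp
  · intro i hi j hj
    rw [length_mat] at hi hj
    rw [ent_mat, ent_mat]
    simp only [hi, hj, decide_true, Bool.and_self, Bool.true_and]
    unfold entT
    rcases lt_trichotomy i j with h | h | h
    · rw [if_pos h, if_neg (by omega), if_pos h]
      simp [h.ne]
    · subst h
      simp
    · rw [if_neg (by omega), if_pos h, if_pos h]
      simp [h.ne']

theorem twoChain_TT (B : List (List Bool)) (m : ℕ) : TwoChain (TT B m) := by
  unfold TT
  refine ⟨B.length + m, ?_, ?_, ?_⟩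
  · rw [length_mat]
    omega
  · intro i j hij hj
    rw [ent_mat]
    unfold entT upT
    rw [if_pos hij, if_neg (by omega)]
    simp
    omega
  · intro i j hi hij hj
    rw [length_mat] at hj
    rw [ent_mat]
    unfold entT upT
    rw [if_pos hij, if_neg (by omega)]
    simp
    omega

theorem t6_chain_congr {α : Type} {R S : α → α → Prop} (l : List α)
    (h : ∀ a ∈ l, ∀ b ∈ l, (R a b ↔ S a b)) : l.IsChain R ↔ l.IsChain S := by
  induction l with
  | nil => simp
  | cons a l ih =>
    cases l with
    | nil => simp
    | cons b l =>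
      rw [List.isChain_cons_cons, List.isChain_cons_cons]
      rw [h a (by simp) b (by simp), ih (fun x hx y hy => h x (by simp [hx]) y (by simp [hy]))]

theorem t6_card {α β : Type} (L : List α) (L' : List β) (φ : α → β) (ψ : β → α)
    (hψ : ∀ a ∈ L, ψ (φ a) = a) (hL : (L.map φ).Perm L') (R : α → α → Prop) (R' : β → β → Prop)
    (hR : ∀ a ∈ L, ∀ b ∈ L, (R' (φ a) (φ b) ↔ R a b)) :
    Nat.card {l : List β // l.Perm L' ∧ l.IsChain R'} =
      Nat.card {l : List α // l.Perm L ∧ l.IsChain R} := by
  symm
  apply Nat.card_congr
  refine Equiv.ofBijective (fun l => ⟨l.1.map φ, ?_, ?_⟩) ⟨?_, ?_⟩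
  · exact (l.2.1.map φ).trans hL
  · rw [List.isChain_map]
    rw [t6_chain_congr (S := R) l.1 (fun a ha b hb => hR a (l.2.1.subset ha) b (l.2.1.subset hb))]
    exact l.2.2
  · rintro ⟨l₁, h₁, h₁'⟩ ⟨l₂, h₂, h₂'⟩ h
    have h3 : l₁.map φ = l₂.map φ := congrArg Subtype.val h
    apply Subtype.ext
    show l₁ = l₂
    have e1 : (l₁.map φ).map ψ = l₁ := by
      rw [List.map_map]
      conv_rhs => rw [← List.map_id l₁]
      apply List.map_congr_left
      intro a ha
      exact hψ a (h₁.subset ha)
    have e2 : (l₂.map φ).map ψ = l₂ := by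
      rw [List.map_map]
      conv_rhs => rw [← List.map_id l₂]
      apply List.map_congr_left
      intro a ha
      exact hψ a (h₂.subset ha)
    rw [← e1, ← e2, h3]
  · rintro ⟨l', h', hc'⟩
    have e0 : (L.map φ).map ψ = L := by
      rw [List.map_map]
      conv_rhs => rw [← List.map_id L]
      apply List.map_congr_left
      intro a ha
      exact hψ a ha
    have hp : (l'.map ψ).Perm L := by
      have h2 := (h'.trans hL.symm).map ψ
      rw [e0] at h2
      exact h2
    have hm : (l'.map ψ).map φ = l' := by
      rw [List.map_map]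
      conv_rhs => rw [← List.map_id l']
      apply List.map_congr_left
      intro b hb
      have hb2 := (h'.trans hL.symm).subset hb
      rw [List.mem_map] at hb2
      obtain ⟨a, ha, rfl⟩ := hb2
      show φ (ψ (φ a)) = φ a
      rw [hψ a ha]
    refine ⟨⟨l'.map ψ, hp, ?_⟩, ?_⟩
    · rw [← hm, List.isChain_map] at hc'
      rw [t6_chain_congr (S := R) (l'.map ψ)
        (fun a ha b hb => hR a (hp.subset ha) b (hp.subset hb))] at hc'
      exact hc'
    · apply Subtype.ext
      exact hm

/-- the number of a vertex -/
def t6_phi (n m : ℕ) : (ℕ ⊕ ℕ) ⊕ ℕ → ℕ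
  | .inl (.inl i) => i
  | .inl (.inr j) => n + m + j
  | .inr s => n + s

/-- the vertex of a number -/
def t6_psi (n m : ℕ) (k : ℕ) : (ℕ ⊕ ℕ) ⊕ ℕ :=
  if k < n then .inl (.inl k) else if k < n + m then .inr (k - n) else .inl (.inr (k - (n + m)))

theorem t6_mem {n m : ℕ} (u : (ℕ ⊕ ℕ) ⊕ ℕ) :
    u ∈ (base n).map Sum.inl ++ (List.range m).map Sum.inr ↔
      (∃ i < n, u = .inl (.inl i)) ∨ (∃ j < n, u = .inl (.inr j)) ∨ ∃ s < m, u = .inr s := by
  unfold base
  simp only [List.mem_append, List.mem_map, List.mem_range]
  constructor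
  · rintro (⟨v, (⟨i, hi, rfl⟩ | ⟨j, hj, rfl⟩), rfl⟩ | ⟨s, hs, rfl⟩)
    · exact Or.inl ⟨i, hi, rfl⟩
    · exact Or.inr (Or.inl ⟨j, hj, rfl⟩)
    · exact Or.inr (Or.inr ⟨s, hs, rfl⟩)
  · rintro (⟨i, hi, rfl⟩ | ⟨j, hj, rfl⟩ | ⟨s, hs, rfl⟩)
    · exact Or.inl ⟨_, Or.inl ⟨i, hi, rfl⟩, rfl⟩
    · exact Or.inl ⟨_, Or.inr ⟨j, hj, rfl⟩, rfl⟩
    · exact Or.inr ⟨s, hs, rfl⟩

theorem t6_perm (n m : ℕ) :
    (((base n).map Sum.inl ++ (List.range m).map Sum.inr).map (t6_phi n m)).Perm
      (List.range (2 * n + m)) := by
  have e1 : ((base n).map Sum.inl ++ (List.range m).map Sum.inr).map (t6_phi n m) =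
      List.range n ++ (List.range n).map (fun j => n + m + j) ++
        (List.range m).map (fun s => n + s) := by
    unfold base
    simp only [List.map_append, List.map_map]
    congr 1
    congr 1
    conv_rhs => rw [← List.map_id (List.range n)]
    apply List.map_congr_left
    intro a _
    rfl
  have e2 : List.range (2 * n + m) = List.range n ++ (List.range m).map (fun s => n + s) ++
      (List.range n).map (fun j => n + m + j) := by
    have h : 2 * n + m = n + m + n := by ring
    rw [h, List.range_add, List.range_add]
  rw [e1, e2, List.append_assoc, List.append_assoc]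
  apply List.Perm.append_left
  exact List.perm_append_comm

theorem t6_rel (B : List (List Bool)) (m : ℕ) (u v : (ℕ ⊕ ℕ) ⊕ ℕ)
    (hu : u ∈ (base B.length).map Sum.inl ++ (List.range m).map Sum.inr)
    (hv : v ∈ (base B.length).map Sum.inl ++ (List.range m).map Sum.inr) :
    ent (TT B m) (t6_phi B.length m u) (t6_phi B.length m v) = RR (rB B) isX isY u v := by
  rw [t6_mem] at hu hv
  unfold TT
  rw [ent_mat]
  generalize hn : B.length = n at *
  rcases hu with ⟨i, hi, rfl⟩ | ⟨j, hj, rfl⟩ | ⟨s, hs, rfl⟩
  · rcases hv with ⟨i', hi', rfl⟩ | ⟨j', hj', rfl⟩ | ⟨s', hs', rfl⟩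
    · have h1 : i < 2 * n + m := by omega
      have h2 : i' < 2 * n + m := by omega
      show (decide (i < 2 * n + m) && decide (i' < 2 * n + m) && entT B m i i') = decide (i < i')
      simp only [h1, h2, decide_true, Bool.and_self, Bool.true_and]
      unfold entT upT
      rw [hn]
      rcases lt_trichotomy i i' with h | h | h
      · rw [if_pos h, if_neg (by omega)]; simp [h]
      · subst h; simp
      · rw [if_neg (by omega), if_pos h, if_neg (by omega)]; simp; omega
    · have h1 : i < 2 * n + m := by omega
      have h2 : n + m + j' < 2 * n + m := by omega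
      show (decide (i < 2 * n + m) && decide (n + m + j' < 2 * n + m) &&
        entT B m i (n + m + j')) = !(ent B j' i)
      simp only [h1, h2, decide_true, Bool.and_self, Bool.true_and]
      unfold entT upT
      rw [hn, if_pos (by omega), if_pos (by omega), Nat.add_sub_cancel_left]
    · have h1 : i < 2 * n + m := by omega
      have h2 : n + s' < 2 * n + m := by omega
      show (decide (i < 2 * n + m) && decide (n + s' < 2 * n + m) &&
        entT B m i (n + s')) = true
      simp only [h1, h2, decide_true, Bool.and_self, Bool.true_and]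
      unfold entT upT
      rw [hn, if_pos (by omega), if_neg (by omega)]
  · rcases hv with ⟨i', hi', rfl⟩ | ⟨j', hj', rfl⟩ | ⟨s', hs', rfl⟩
    · have h1 : n + m + j < 2 * n + m := by omega
      have h2 : i' < 2 * n + m := by omega
      show (decide (n + m + j < 2 * n + m) && decide (i' < 2 * n + m) &&
        entT B m (n + m + j) i') = ent B j i'
      simp only [h1, h2, decide_true, Bool.and_self, Bool.true_and]
      unfold entT upT
      rw [hn, if_neg (by omega), if_pos (by omega), if_pos (by omega), Nat.add_sub_cancel_left,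
        Bool.not_not]
    · have h1 : n + m + j < 2 * n + m := by omega
      have h2 : n + m + j' < 2 * n + m := by omega
      show (decide (n + m + j < 2 * n + m) && decide (n + m + j' < 2 * n + m) &&
        entT B m (n + m + j) (n + m + j')) = decide (j < j')
      simp only [h1, h2, decide_true, Bool.and_self, Bool.true_and]
      unfold entT upT
      rw [hn]
      rcases lt_trichotomy j j' with h | h | h
      · rw [if_pos (by omega), if_neg (by omega)]; simp [h]
      · subst h; simp
      · rw [if_neg (by omega), if_pos (by omega), if_neg (by omega)]; simp; omega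
    · have h1 : n + m + j < 2 * n + m := by omega
      have h2 : n + s' < 2 * n + m := by omega
      show (decide (n + m + j < 2 * n + m) && decide (n + s' < 2 * n + m) &&
        entT B m (n + m + j) (n + s')) = false
      simp only [h1, h2, decide_true, Bool.and_self, Bool.true_and]
      unfold entT upT
      rw [hn, if_neg (by omega), if_pos (by omega), if_neg (by omega)]
      rfl
  · rcases hv with ⟨i', hi', rfl⟩ | ⟨j', hj', rfl⟩ | ⟨s', hs', rfl⟩
    · have h1 : n + s < 2 * n + m := by omega
      have h2 : i' < 2 * n + m := by omega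
      show (decide (n + s < 2 * n + m) && decide (i' < 2 * n + m) &&
        entT B m (n + s) i') = false
      simp only [h1, h2, decide_true, Bool.and_self, Bool.true_and]
      unfold entT upT
      rw [hn, if_neg (by omega), if_pos (by omega), if_neg (by omega)]
      rfl
    · have h1 : n + s < 2 * n + m := by omega
      have h2 : n + m + j' < 2 * n + m := by omega
      show (decide (n + s < 2 * n + m) && decide (n + m + j' < 2 * n + m) &&
        entT B m (n + s) (n + m + j')) = true
      simp only [h1, h2, decide_true, Bool.and_self, Bool.true_and]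
      unfold entT upT
      rw [hn, if_pos (by omega), if_neg (by omega)]
    · have h1 : n + s < 2 * n + m := by omega
      have h2 : n + s' < 2 * n + m := by omega
      show (decide (n + s < 2 * n + m) && decide (n + s' < 2 * n + m) &&
        entT B m (n + s) (n + s')) = decide (s < s')
      simp only [h1, h2, decide_true, Bool.and_self, Bool.true_and]
      unfold entT upT
      rw [hn]
      rcases lt_trichotomy s s' with h | h | h
      · rw [if_pos (by omega), if_neg (by omega)]; simp [h]
      · subst h; simp
      · rw [if_neg (by omega), if_pos (by omega), if_neg (by omega)]; simp; omega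

theorem hp_TT (B : List (List Bool)) (m : ℕ) :
    hp (TT B m) = Nat.card {l : List ((ℕ ⊕ ℕ) ⊕ ℕ) //
      l.Perm ((base B.length).map Sum.inl ++ (List.range m).map Sum.inr) ∧
      l.IsChain (fun u v => RR (rB B) isX isY u v = true)} := by
  have hlen : (TT B m).length = 2 * B.length + m := length_mat _ _
  unfold hp
  rw [hlen]
  apply t6_card _ _ (t6_phi B.length m) (t6_psi B.length m)
  · intro a ha
    rw [t6_mem] at ha
    rcases ha with ⟨i, hi, rfl⟩ | ⟨j, hj, rfl⟩ | ⟨s, hs, rfl⟩
    · show t6_psi B.length m i = _
      unfold t6_psi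
      rw [if_pos hi]
    · show t6_psi B.length m (B.length + m + j) = _
      unfold t6_psi
      rw [if_neg (by omega), if_neg (by omega), Nat.add_sub_cancel_left]
    · show t6_psi B.length m (B.length + s) = _
      unfold t6_psi
      rw [if_neg (by omega), if_pos (by omega), Nat.add_sub_cancel_left]
  · exact t6_perm _ _
  · intro a ha b hb
    rw [t6_rel B m a b ha hb]

end Pool.Agent.H549R2.TO
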