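import Pool.Agent.H549R2.TO.T2
import Pool.Agent.H549R2.TO.T4
import Pool.Agent.H549R2.TO.T5a
import Pool.Agent.H549R2.TO.T5b
import Pool.Agent.H549R2.TO.T6

/-!
# The identity between Hamiltonian paths of tournaments and the permanent
-/

namespace Pool.Agent.H549R2.TO

open Pool.Agent.H549R2.Convex Polynomial

theorem filterY_length (n : ℕ) (v : List (ℕ ⊕ ℕ)) (h : v.Perm (base n)) :
    (v.filter isY).length = n := by
  rw [(h.filter isY).length_eq, base, List.filter_append, List.filter_map, List.filter_map]
  have h1 : (List.range n).filter (isY ∘ Sum.inl) = [] := by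
    rw [List.filter_eq_nil_iff]
    intro a _
    simp [isY]
  have h2 : (List.range n).filter (isY ∘ Sum.inr) = List.range n := by
    rw [List.filter_eq_self]
    intro a _
    simp [isY]
  rw [h1, h2]
  simp

theorem filterX_length (n : ℕ) (v : List (ℕ ⊕ ℕ)) (h : v.Perm (base n)) :
    (v.filter isX).length = n := by
  rw [(h.filter isX).length_eq, base, List.filter_append, List.filter_map, List.filter_map]
  have h1 : (List.range n).filter (isX ∘ Sum.inl) = List.range n := by
    rw [List.filter_eq_self]
    intro a _
    simp [isX]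
  have h2 : (List.range n).filter (isX ∘ Sum.inr) = [] := by
    rw [List.filter_eq_nil_iff]
    intro a _
    simp [isX]
  rw [h1, h2]
  simp

theorem main_id (B : List (List Bool)) (h : ∀ r ∈ B, r.length = B.length) :
    ((hsum (B.length + 1) (fun m => hp (TT B m)) 0 : ℕ) : ℤ) -
      ((hsum (B.length + 1) (fun m => hp (TT B m)) 1 : ℕ) : ℤ) =
      (((B.length + 1).factorial * B.length.factorial * F B : ℕ) : ℤ) := by
  rw [hsum_eq]
  have key : ∀ m, ((hp (TT B m) : ℕ) : ℤ) = ∑ v ∈ (base B.length).permutations.toFinset,
      Ev m (PP (rB B) isX isY true (fun _ => true) v) := by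
    intro m
    rw [hp_TT, card_total]
  have h1 : ∑ m ∈ Finset.range (B.length + 1 + 1), (-1 : ℤ) ^ (B.length + 1 - m) *
      (cc (B.length + 1) m : ℤ) * ((hp (TT B m) : ℕ) : ℤ) =
      ∑ v ∈ (base B.length).permutations.toFinset, ∑ m ∈ Finset.range (B.length + 1 + 1),
        (-1 : ℤ) ^ (B.length + 1 - m) * (cc (B.length + 1) m : ℤ) *
          Ev m (PP (rB B) isX isY true (fun _ => true) v) := by
    rw [Finset.sum_comm]
    refine Finset.sum_congr rfl fun m _ => ?_
    rw [key, Finset.mul_sum]
  rw [h1]
  have h2 : ∀ v ∈ (base B.length).permutations.toFinset,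
      ∑ m ∈ Finset.range (B.length + 1 + 1), (-1 : ℤ) ^ (B.length + 1 - m) *
        (cc (B.length + 1) m : ℤ) * Ev m (PP (rB B) isX isY true (fun _ => true) v) =
      ((B.length + 1).factorial : ℤ) * if altB B v = true then 1 else 0 := by
    intro v hv
    rw [List.mem_toFinset, List.mem_permutations] at hv
    have hY := filterY_length _ v hv
    have hX := filterX_length _ v hv
    have h3 := PP_natDegree B v true (fun _ => true)
    rw [hY] at h3
    rw [cc_ev _ (by omega) _ h3]
    have h4 := PP_coeff B v (fun _ => true) (by omega)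
    rw [hY] at h4
    rw [h4]
  rw [Finset.sum_congr rfl h2, ← Finset.mul_sum, Finset.sum_boole, card_alt B h]
  push_cast
  ring

end Pool.Agent.H549R2.TO
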