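import Pool.Agent.H549R2.TO.Defs
import Pool.Agent.H549R2.BR.P1

/-!
# Polynomial time
-/

namespace Pool.Agent.NPC.H549TO

open Pool.Agent.H549R2.Convex Pool.Agent.H549R2.TO Pool.Agent.NPC.Cnt
open Pool.Agent.NPC.H549Convex (LL)

theorem mat_poly {α : Type} [TEnc α] {N : α → ℕ} {f : α → ℕ → ℕ → Bool} (hN : UPoly N)
    (hf : Poly (fun z : (α × ℕ) × ℕ => f z.1.1 z.1.2 z.2)) : Poly (fun a => mat (N a) (f a)) := by
  refine Poly.map (F := fun (a : α) i => (List.range (N a)).map (fun j => f a i j)) hN.range ?_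
  exact Poly.map (F := fun (p : α × ℕ) j => f p.1 p.2 j) (hN.comp (Poly.fst Poly.id)).range hf

theorem pupT {α : Type} [TEnc α] {B : α → LL} {m i j : α → ℕ} (hB : Poly B) (hm : Poly m)
    (hi : Poly i) (hj : Poly j) : Poly (fun a => upT (B a) (m a) (i a) (j a)) := by
  have hl : Poly (fun a => (B a).length) := Poly.length hB
  have h1 : Poly (fun a => decide (i a < (B a).length ∧ (B a).length + m a ≤ j a)) :=
    Poly.decide_and (Poly.decide_lt hi hl) (Poly.decide_le (Poly.add hl hm) hj)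
  refine Poly.ite h1 ?_ (Poly.const true)
  exact Poly.not (H549BR.pent hB (Poly.sub hj (Poly.add hl hm)) hi)

theorem pentT {α : Type} [TEnc α] {B : α → LL} {m i j : α → ℕ} (hB : Poly B) (hm : Poly m)
    (hi : Poly i) (hj : Poly j) : Poly (fun a => entT (B a) (m a) (i a) (j a)) := by
  refine Poly.ite (Poly.decide_lt hi hj) (pupT hB hm hi hj) ?_
  exact Poly.ite (Poly.decide_lt hj hi) (Poly.not (pupT hB hm hj hi)) (Poly.const false)

theorem pupC {α : Type} [TEnc α] {A : α → LL} {i j : α → ℕ} (hA : Poly A)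
    (hi : Poly i) (hj : Poly j) : Poly (fun a => upC (A a) (i a) (j a)) := by
  have hl : Poly (fun a => (A a).length) := Poly.length hA
  refine Poly.ite (Poly.decide_eq hj (Poly.succ hl)) ?_ ?_
  · exact Poly.decide_not (Poly.decide_eq hi (Poly.const 0))
  · refine Poly.ite (Poly.decide_eq hi (Poly.const 0)) (Poly.const true) ?_
    exact H549BR.pent hA (Poly.sub hi (Poly.const 1)) (Poly.sub hj (Poly.const 1))

theorem pentC {α : Type} [TEnc α] {A : α → LL} {i j : α → ℕ} (hA : Poly A)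
    (hi : Poly i) (hj : Poly j) : Poly (fun a => entC (A a) (i a) (j a)) := by
  refine Poly.ite (Poly.decide_lt hi hj) (pupC hA hi hj) ?_
  exact Poly.ite (Poly.decide_lt hj hi) (Poly.not (pupC hA hj hi)) (Poly.const false)

theorem TT_poly : Poly (fun z : LL × ℕ => TT z.1 (min z.2 (z.1.length + 1))) := by
  have hl : UPoly (fun z : LL × ℕ => z.1.length) := UPoly.length (Poly.fst Poly.id)
  have hm : UPoly (fun z : LL × ℕ => min z.2 (z.1.length + 1)) :=
    H549PM.upoly_min (Poly.snd Poly.id) (UPoly.add hl (UPoly.const 1))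
  refine mat_poly (N := fun z : LL × ℕ => 2 * z.1.length + min z.2 (z.1.length + 1))
    (f := fun z : LL × ℕ => entT z.1 (min z.2 (z.1.length + 1)))
    (UPoly.add (UPoly.mul (UPoly.const 2) hl) hm) ?_
  exact pentT (Poly.fst (Poly.fst (Poly.fst Poly.id))) (hm.toPoly.comp (Poly.fst (Poly.fst Poly.id)))
    (Poly.snd (Poly.fst Poly.id)) (Poly.snd Poly.id)

theorem TC_poly : Poly (fun A : LL => TC A) := by
  refine mat_poly (N := fun A : LL => A.length + 2) (f := fun A : LL => entC A)
    (UPoly.add (UPoly.length Poly.id) (UPoly.const 2)) ?_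
  exact pentC (Poly.fst (Poly.fst Poly.id)) (Poly.snd (Poly.fst Poly.id)) (Poly.snd Poly.id)

end Pool.Agent.NPC.H549TO
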