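import Pool.Agent.H549R2.TO.Defs
import Pool.Agent.H549R2.BR.P1

/-!
# Polynomial time: the combination of the answers
-/

namespace Pool.Agent.NPC.H549TO

open Pool.Agent.H549R2.Convex Pool.Agent.H549R2.TO Pool.Agent.NPC.Cnt
open Pool.Agent.NPC.H549Convex (LL sqB)

theorem cc_poly {α : Type} [TEnc α] {K m : α → ℕ} (hK : UPoly K) (hm : UPoly m) :
    Poly (fun a => cc (K a) (m a)) := by
  have hKK : UPoly (fun a => K a * K a) := UPoly.mul hK hK
  have h1 : Poly (fun a => (List.range (K a)).map (fun i => 2 ^ (K a * K a) + i)) :=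
    Poly.map (F := fun a i => 2 ^ (K a * K a) + i) hK.range
      (Poly.add ((Pool.Agent.NPC.H549PM.upoly_pow2 hKK).comp (Poly.fst Poly.id))
        (Poly.snd Poly.id))
  exact Poly.mod (Poly.div (Pool.Agent.NPC.H549Convex.poly_prod h1)
    (Pool.Agent.NPC.H549PM.upoly_pow2 (UPoly.mul hKK hm))) (Pool.Agent.NPC.H549PM.upoly_pow2 hKK)

theorem hsum_poly {α : Type} [TEnc α] {K : α → ℕ} {h : α → ℕ → ℕ} (b : ℕ) (hK : UPoly K)
    (hh : Poly (fun z : α × ℕ => h z.1 z.2)) : Poly (fun a => hsum (K a) (h a) b) := by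
  have hK1 : UPoly (fun p : α × ℕ => K p.1) := hK.comp (Poly.fst Poly.id)
  have hm1 : UPoly (fun p : α × ℕ => min p.2 (K p.1)) :=
    Pool.Agent.NPC.H549PM.upoly_min (Poly.snd Poly.id) hK1
  have h2 : Poly (fun p : α × ℕ => if (K p.1 - p.2) % 2 = b then
      cc (K p.1) (min p.2 (K p.1)) * h p.1 p.2 else 0) :=
    Poly.ite (Poly.decide_eq (Poly.mod (Poly.sub hK1.toPoly (Poly.snd Poly.id)) (Poly.const 2))
      (Poly.const b)) (Poly.mul (cc_poly hK1 hm1) hh) (Poly.const 0)
  refine (Poly.sum (Poly.map (F := fun (a : α) (m : ℕ) => if (K a - m) % 2 = b then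
      cc (K a) (min m (K a)) * h a m else 0) (UPoly.add hK (UPoly.const 1)).range h2)).congr
      fun a => ?_
  unfold hsum
  refine congrArg List.sum (List.map_congr_left fun m hm => ?_)
  have hm' : m ≤ K a := Nat.lt_succ_iff.1 (List.mem_range.1 hm)
  rw [min_eq_left hm']

/-- the postprocessing of the first reduction -/
def post1 (p : LL × List ℕ) : ℕ :=
  cond (sqB p.1) ((hsum (p.1.length + 1) (fun m => p.2.getD m 0) 0 -
    hsum (p.1.length + 1) (fun m => p.2.getD m 0) 1) /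
      ((p.1.length + 1).factorial * p.1.length.factorial)) 0

theorem post1_poly : Poly post1 := by
  have hl : UPoly (fun p : LL × List ℕ => p.1.length) := UPoly.length (Poly.fst Poly.id)
  have hl1 : UPoly (fun p : LL × List ℕ => p.1.length + 1) := UPoly.add hl (UPoly.const 1)
  have hg : Poly (fun z : (LL × List ℕ) × ℕ => z.1.2.getD z.2 0) :=
    Poly.getD (Poly.snd (Poly.fst Poly.id)) (Poly.snd Poly.id) (Poly.const 0)
  have h0 := hsum_poly (h := fun (p : LL × List ℕ) m => p.2.getD m 0) 0 hl1 hg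
  have h1 := hsum_poly (h := fun (p : LL × List ℕ) m => p.2.getD m 0) 1 hl1 hg
  exact Poly.cond (Pool.Agent.NPC.H549Convex.sqB_poly.comp (Poly.fst Poly.id))
    (Poly.div (Poly.sub h0 h1) (Poly.mul (Pool.Agent.NPC.H549Convex.upoly_fact hl1)
      (Pool.Agent.NPC.H549Convex.upoly_fact hl))) (Poly.const 0)

end Pool.Agent.NPC.H549TO
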