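import Pool.Agent.H549R2.TO.Defs
import Pool.Agent.H549R2.BR.P1

/-!
# Certificates
-/

namespace Pool.Agent.NPC.H549TO

open Pool.Agent.H549R2.Convex Pool.Agent.H549R2.TO Pool.Agent.NPC.Cnt
open Pool.Agent.NPC.H549Convex (LL sqB sqB_poly)
open Pool.Agent.NPC.H549BR (pent ulen)

/-- test for tournaments -/
def tourB (A : LL) : Bool :=
  sqB A && (List.range A.length).all (fun i => (List.range A.length).all (fun j =>
    decide (ent A i j = (!(decide (i = j)) && !(ent A j i)))))

theorem tourB_iff (A : LL) : tourB A = true ↔ IsTour A := by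
  unfold tourB sqB IsTour
  rw [Bool.and_eq_true, List.all_eq_true, List.all_eq_true]
  refine and_congr ?_ ?_
  · refine forall₂_congr fun r _ => ?_
    rw [decide_eq_true_eq]
  · refine forall_congr' fun i => ?_
    rw [List.mem_range]
    refine imp_congr_right fun _ => ?_
    rw [List.all_eq_true]
    refine forall_congr' fun j => ?_
    rw [List.mem_range]
    refine imp_congr_right fun _ => ?_
    rw [decide_eq_true_eq]
    by_cases h : i = j
    · cases h1 : ent A i j <;> simp [h]
    · cases h1 : ent A i j <;> cases h2 : ent A j i <;> simp [h]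

theorem tourB_poly : Poly tourB := by
  refine Poly.and sqB_poly ?_
  refine Poly.all (p := fun (A : LL) i => (List.range A.length).all (fun j =>
    decide (ent A i j = (!(decide (i = j)) && !(ent A j i))))) (Poly.range_length Poly.id) ?_
  refine Poly.all (p := fun (p : LL × ℕ) j =>
    decide (ent p.1 p.2 j = (!(decide (p.2 = j)) && !(ent p.1 j p.2))))
    (Poly.range_length (Poly.fst Poly.id)) ?_
  have hA : Poly (fun p : (LL × ℕ) × ℕ => p.1.1) := Poly.fst (Poly.fst Poly.id)
  have hi : Poly (fun p : (LL × ℕ) × ℕ => p.1.2) := Poly.snd (Poly.fst Poly.id)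
  have hj : Poly (fun p : (LL × ℕ) × ℕ => p.2) := Poly.snd Poly.id
  exact Poly.decide_eq (pent hA hi hj) (Poly.and (Poly.not (Poly.decide_eq hi hj))
    (Poly.not (pent hA hj hi)))

/-- test for two chains -/
def twoB (A : LL) : Bool :=
  (List.range (A.length + 1)).any (fun p => (List.range A.length).all (fun i =>
    (List.range A.length).all (fun j => !(decide (i < j) && (decide (j < p) || decide (p ≤ i))) ||
      ent A i j)))

theorem twoB_iff (A : LL) : twoB A = true ↔ TwoChain A := by
  unfold twoB TwoChain
  rw [List.any_eq_true]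
  refine exists_congr fun p => ?_
  rw [List.mem_range, Nat.lt_succ_iff]
  refine and_congr_right fun hp => ?_
  rw [List.all_eq_true]
  constructor
  · intro h
    have h' : ∀ i < A.length, ∀ j < A.length, i < j → (j < p ∨ p ≤ i) → ent A i j = true := by
      intro i hi j hj hij hc
      have h1 := h i (List.mem_range.2 hi)
      rw [List.all_eq_true] at h1
      have h2 := h1 j (List.mem_range.2 hj)
      rw [Bool.or_eq_true] at h2
      rcases h2 with h2 | h2
      · exfalso
        rw [Bool.not_eq_true', Bool.and_eq_false_iff] at h2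
        rcases h2 with h2 | h2
        · exact (of_decide_eq_false h2) hij
        · rw [Bool.or_eq_false_iff] at h2
          rcases hc with hc | hc
          · exact (of_decide_eq_false h2.1) hc
          · exact (of_decide_eq_false h2.2) hc
      · exact h2
    exact ⟨fun i j hij hj => h' i (by omega) j (by omega) hij (Or.inl hj),
      fun i j hi hij hj => h' i (by omega) j hj hij (Or.inr hi)⟩
  · rintro ⟨h1, h2⟩ i hi
    rw [List.all_eq_true]
    intro j hj
    rw [List.mem_range] at hi hj
    rw [Bool.or_eq_true]
    by_cases hc : i < j ∧ (j < p ∨ p ≤ i)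
    · right
      rcases hc with ⟨hij, hc | hc⟩
      · exact h1 i j hij hc
      · exact h2 i j hc hij hj
    · left
      rw [Bool.not_eq_true', ← Bool.not_eq_true, Bool.and_eq_true, Bool.or_eq_true,
        decide_eq_true_eq, decide_eq_true_eq, decide_eq_true_eq]
      exact hc

theorem twoB_poly : Poly twoB := by
  refine Poly.any (p := fun (A : LL) p => (List.range A.length).all (fun i =>
    (List.range A.length).all (fun j => !(decide (i < j) && (decide (j < p) || decide (p ≤ i))) ||
      ent A i j))) (UPoly.add (ulen Poly.id) (UPoly.const 1)).range ?_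
  refine Poly.all (p := fun (z : LL × ℕ) i => (List.range z.1.length).all (fun j =>
    !(decide (i < j) && (decide (j < z.2) || decide (z.2 ≤ i))) || ent z.1 i j))
    (Poly.range_length (Poly.fst Poly.id)) ?_
  refine Poly.all (p := fun (z : (LL × ℕ) × ℕ) j =>
    !(decide (z.2 < j) && (decide (j < z.1.2) || decide (z.1.2 ≤ z.2))) || ent z.1.1 z.2 j)
    (Poly.range_length (Poly.fst (Poly.fst Poly.id))) ?_
  have hA : Poly (fun p : ((LL × ℕ) × ℕ) × ℕ => p.1.1.1) :=
    Poly.fst (Poly.fst (Poly.fst Poly.id))
  have hp : Poly (fun p : ((LL × ℕ) × ℕ) × ℕ => p.1.1.2) :=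
    Poly.snd (Poly.fst (Poly.fst Poly.id))
  have hi : Poly (fun p : ((LL × ℕ) × ℕ) × ℕ => p.1.2) := Poly.snd (Poly.fst Poly.id)
  have hj : Poly (fun p : ((LL × ℕ) × ℕ) × ℕ => p.2) := Poly.snd Poly.id
  exact Poly.or (Poly.not (Poly.and (Poly.decide_lt hi hj)
    (Poly.or (Poly.decide_lt hj hp) (Poly.decide_le hp hi)))) (pent hA hi hj)

/-- certificate for a Hamiltonian path -/
def certP (A : LL) (w : List ℕ) : Bool :=
  decide (w.length = A.length) && (List.range A.length).all (fun k => w.any (fun x => decide (x = k))) &&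
    (List.range (A.length - 1)).all (fun i => ent A (w.getD i 0) (w.getD (i + 1) 0))

theorem certP_iff (A : LL) (w : List ℕ) : certP A w = true ↔
    w.Perm (List.range A.length) ∧ w.IsChain (fun i j => ent A i j = true) := by
  unfold certP
  rw [Bool.and_eq_true, Bool.and_eq_true, decide_eq_true_eq, List.all_eq_true, List.all_eq_true]
  have key : w.length = A.length → ((∀ i ∈ List.range (A.length - 1),
      ent A (w.getD i 0) (w.getD (i + 1) 0) = true) ↔
      w.IsChain (fun i j => ent A i j = true)) := by
    intro hl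
    rw [List.isChain_iff_getElem]
    constructor
    · intro h i hi
      have h1 := h i (List.mem_range.2 (by omega))
      rw [List.getD_eq_getElem _ _ (by omega), List.getD_eq_getElem _ _ hi] at h1
      exact h1
    · intro h i hi
      rw [List.mem_range] at hi
      have hi' : i + 1 < w.length := by omega
      rw [List.getD_eq_getElem _ _ (by omega), List.getD_eq_getElem _ _ hi']
      exact h i hi'
  constructor
  · rintro ⟨⟨h1, h2⟩, h3⟩
    refine ⟨?_, (key h1).1 h3⟩
    have hs : List.range A.length ⊆ w := by
      intro k hk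
      have h4 := h2 k hk
      rw [List.any_eq_true] at h4
      obtain ⟨x, hx, hxk⟩ := h4
      rw [decide_eq_true_eq] at hxk
      rwa [← hxk]
    have hp := List.nodup_range.subperm hs
    exact (hp.perm_of_length_le (by rw [List.length_range, h1])).symm
  · rintro ⟨h1, h2⟩
    have hl : w.length = A.length := by rw [h1.length_eq, List.length_range]
    refine ⟨⟨hl, fun k hk => ?_⟩, (key hl).2 h2⟩
    rw [List.any_eq_true]
    exact ⟨k, h1.mem_iff.2 hk, by simp⟩

theorem certP_poly : Poly (fun z : LL × List ℕ => certP z.1 z.2) := by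
  refine Poly.and (Poly.and (Poly.decide_eq (Poly.length (Poly.snd Poly.id))
    (Poly.length (Poly.fst Poly.id))) ?_) ?_
  · refine Poly.all (p := fun (z : LL × List ℕ) k => z.2.any (fun x => decide (x = k)))
      (Poly.range_length (Poly.fst Poly.id)) ?_
    refine Poly.any (p := fun (z : (LL × List ℕ) × ℕ) x => decide (x = z.2))
      (Poly.snd (Poly.fst Poly.id)) ?_
    exact Poly.decide_eq (Poly.snd Poly.id) (Poly.snd (Poly.fst Poly.id))
  · have hn : UPoly (fun z : LL × List ℕ => z.1.length - 1) :=
      UPoly.of_le (Poly.sub (Poly.length (Poly.fst Poly.id)) (Poly.const 1))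
        (ulen (Poly.fst Poly.id)) fun _ => Nat.sub_le _ _
    refine Poly.all (p := fun (z : LL × List ℕ) i => ent z.1 (z.2.getD i 0) (z.2.getD (i + 1) 0))
      hn.range ?_
    have hA : Poly (fun z : (LL × List ℕ) × ℕ => z.1.1) := Poly.fst (Poly.fst Poly.id)
    have hw : Poly (fun z : (LL × List ℕ) × ℕ => z.1.2) := Poly.snd (Poly.fst Poly.id)
    have hi : Poly (fun z : (LL × List ℕ) × ℕ => z.2) := Poly.snd Poly.id
    exact pent hA (Poly.getD hw hi (Poly.const 0)) (Poly.getD hw (Poly.succ hi) (Poly.const 0))

/-- certificate for a Hamiltonian cycle -/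
def certC (A : LL) (w : List ℕ) : Bool :=
  certP A w && !(decide (A.length = 0)) && decide (w.getD 0 0 = 0) &&
    ent A (w.getD (A.length - 1) 0) 0

theorem certC_iff (A : LL) (w : List ℕ) : certC A w = true ↔
    w.Perm (List.range A.length) ∧ w.IsChain (fun i j => ent A i j = true) ∧
      w.head? = some 0 ∧ ∃ v, w.getLast? = some v ∧ ent A v 0 = true := by
  unfold certC
  rw [Bool.and_eq_true, Bool.and_eq_true, Bool.and_eq_true, certP_iff, Bool.not_eq_true',
    decide_eq_false_iff_not, decide_eq_true_eq]
  constructor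
  · rintro ⟨⟨⟨⟨h1, h2⟩, h3⟩, h4⟩, h5⟩
    have hl : w.length = A.length := by rw [h1.length_eq, List.length_range]
    refine ⟨h1, h2, ?_, w.getD (A.length - 1) 0, ?_, h5⟩
    · rw [List.head?_eq_getElem?, List.getElem?_eq_getElem (by omega)]
      rw [List.getD_eq_getElem _ _ (by omega)] at h4
      rw [h4]
    · rw [List.getLast?_eq_getElem?, hl, List.getElem?_eq_getElem (by omega),
        List.getD_eq_getElem _ _ (by omega)]
  · rintro ⟨h1, h2, h3, v, h4, h5⟩
    have hl : w.length = A.length := by rw [h1.length_eq, List.length_range]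
    have h0 : A.length ≠ 0 := by
      intro h0
      have : w = [] := List.length_eq_zero_iff.1 (by omega)
      rw [this] at h3
      simp at h3
    refine ⟨⟨⟨⟨h1, h2⟩, h0⟩, ?_⟩, ?_⟩
    · rw [List.head?_eq_getElem?, List.getElem?_eq_getElem (by omega)] at h3
      rw [List.getD_eq_getElem _ _ (by omega)]
      exact Option.some.inj h3
    · rw [List.getLast?_eq_getElem?, hl, List.getElem?_eq_getElem (by omega)] at h4
      rw [List.getD_eq_getElem _ _ (by omega), Option.some.inj h4]
      exact h5

theorem certC_poly : Poly (fun z : LL × List ℕ => certC z.1 z.2) := by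
  have hA : Poly (fun z : LL × List ℕ => z.1) := Poly.fst Poly.id
  have hw : Poly (fun z : LL × List ℕ => z.2) := Poly.snd Poly.id
  have h1 : Poly (fun z : LL × List ℕ => z.2.getD 0 0) :=
    Poly.getD hw (Poly.const 0) (Poly.const 0)
  have h2 : Poly (fun z : LL × List ℕ => z.2.getD (z.1.length - 1) 0) :=
    Poly.getD hw (Poly.sub (Poly.length hA) (Poly.const 1)) (Poly.const 0)
  exact Poly.and (Poly.and (Poly.and certP_poly (Poly.not (Poly.decide_eq (Poly.length hA)
    (Poly.const 0)))) (Poly.decide_eq h1 (Poly.const 0))) (pent hA h2 (Poly.const 0))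

/-- certificates are short -/
theorem certP_size (A : LL) (w : List ℕ) (h : certP A w = true) :
    sz w ≤ (Polynomial.X * (Polynomial.C 4 * Polynomial.X + Polynomial.C 2) +
      Polynomial.C 1 : Polynomial ℕ).eval (sz A) := by
  have hp := ((certP_iff A w).1 h).1
  have hlen : w.length = A.length := by rw [hp.length_eq, List.length_range]
  have h1 : ∀ a ∈ w, sz a ≤ 4 * A.length + 1 := by
    intro a ha
    have h2 : a < A.length := List.mem_range.1 (hp.mem_iff.1 ha)
    have h3 := sz_nat_le a
    have h4 : a.size ≤ a := Nat.size_le.2 Nat.lt_two_pow_self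
    omega
  have h2 := sz_le_length_mul w _ h1
  have h3 := length_lt_sz A
  simp only [Polynomial.eval_add, Polynomial.eval_mul, Polynomial.eval_X, Polynomial.eval_C]
  have h4 : w.length * (4 * A.length + 1 + 1) ≤ sz A * (4 * sz A + 2) :=
    Nat.mul_le_mul (by omega) (by omega)
  omega

end Pool.Agent.NPC.H549TO
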