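import Pool.Agent.H549R2.TO.T6

namespace Pool.Agent.H549R2.TO

open Pool.Agent.H549R2.Convex

theorem T8_length (A : List (List Bool)) : (TC A).length = A.length + 2 := by
  unfold TC
  exact length_mat _ _

theorem T8_ent (A : List (List Bool)) {i j : ℕ} (hi : i < A.length + 2) (hj : j < A.length + 2) :
    ent (TC A) i j = entC A i j := by
  unfold TC
  rw [ent_mat]
  simp [hi, hj]

theorem isTour_TC (A : List (List Bool)) (_h : IsTour A) : IsTour (TC A) := by
  refine ⟨?_, ?_⟩
  · intro r hr
    rw [T8_length]
    unfold TC mat at hr
    rw [List.mem_map] at hr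
    obtain ⟨i, _, rfl⟩ := hr
    simp
  · intro i hi j hj
    rw [T8_length] at hi hj
    rw [T8_ent A hi hj, T8_ent A hj hi]
    unfold entC
    rcases lt_trichotomy i j with h | h | h
    · rw [if_pos h, if_neg (by omega), if_pos h]
      constructor
      · intro h1
        exact ⟨by omega, by rw [h1]; rfl⟩
      · rintro ⟨-, h1⟩
        simpa using h1
    · subst h
      simp
    · rw [if_neg (by omega), if_pos h, if_pos h]
      constructor
      · intro h1
        exact ⟨by omega, by simpa using h1⟩
      · rintro ⟨-, h1⟩
        rw [h1]
        rfl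

theorem twoChain_TC (A : List (List Bool)) (_h : IsTour A) (h2 : TwoChain A) :
    TwoChain (TC A) := by
  obtain ⟨p, hp, h3, h4⟩ := h2
  refine ⟨p + 1, by rw [T8_length]; omega, ?_, ?_⟩
  · intro i j hij hj
    rw [T8_ent A (by omega) (by omega)]
    unfold entC
    rw [if_pos hij]
    unfold upC
    rw [if_neg (by omega)]
    split_ifs with h0
    · rfl
    · exact h3 (i - 1) (j - 1) (by omega) (by omega)
  · intro i j hi hij hj
    rw [T8_length] at hj
    rw [T8_ent A (by omega) (by omega)]
    unfold entC
    rw [if_pos hij]
    unfold upC
    split_ifs with h0 h1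
    · simp only [decide_eq_true_eq]
      omega
    · rfl
    · exact h4 (i - 1) (j - 1) (by omega) (by omega) (by omega)

/-- inner arcs -/
theorem T8_inner (A : List (List Bool)) (h : IsTour A) {i j : ℕ} (hi : i < A.length)
    (hj : j < A.length) : ent (TC A) (i + 1) (j + 1) = ent A i j := by
  rw [T8_ent A (by omega) (by omega)]
  have e1 : ∀ {a b : ℕ}, a < A.length → b < A.length → a < b →
      upC A (a + 1) (b + 1) = ent A a b := by
    intro a b ha hb _
    unfold upC
    rw [if_neg (by omega), if_neg (by omega)]
    rfl
  have h1 := h.2 i hi j hj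
  unfold entC
  rcases lt_trichotomy i j with hij | hij | hij
  · rw [if_pos (by omega), e1 hi hj hij]
  · subst hij
    rw [if_neg (by omega), if_neg (by omega)]
    cases hx : ent A i i with
    | false => rfl
    | true =>
      rw [hx] at h1
      simp at h1
  · rw [if_neg (by omega), if_pos (by omega), e1 hj hi hij]
    cases hx : ent A i j with
    | false =>
      cases hy : ent A j i with
      | false =>
        rw [hx, hy] at h1
        simp at h1
        omega
      | true => rfl
    | true =>
      have h2 := (h1.1 hx).2
      rw [h2]
      rfl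

/-- arcs from `0` -/
theorem T8_zero (A : List (List Bool)) {j : ℕ} (hj : j < A.length) :
    ent (TC A) 0 (j + 1) = true := by
  rw [T8_ent A (by omega) (by omega)]
  unfold entC upC
  rw [if_pos (by omega), if_neg (by omega), if_pos rfl]

/-- arcs to the last vertex -/
theorem T8_last (A : List (List Bool)) {i : ℕ} (hi : i < A.length) :
    ent (TC A) (i + 1) (A.length + 1) = true := by
  rw [T8_ent A (by omega) (by omega)]
  unfold entC upC
  rw [if_pos (by omega), if_pos rfl]
  simp

/-- arcs to `0` -/
theorem T8_to_zero (A : List (List Bool)) (v : ℕ) :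
    ent (TC A) v 0 = true ↔ v = A.length + 1 := by
  constructor
  · intro h
    have hv : v < A.length + 2 := by
      by_contra hcon
      unfold TC at h
      rw [ent_mat] at h
      simp [hcon] at h
    rw [T8_ent A hv (by omega)] at h
    unfold entC at h
    rw [if_neg (by omega)] at h
    by_cases h0 : 0 < v
    · rw [if_pos h0] at h
      unfold upC at h
      by_contra hne
      rw [if_neg hne, if_pos rfl] at h
      simp at h
    · rw [if_neg h0] at h
      simp at h
  · rintro rfl
    rw [T8_ent A (by omega) (by omega)]
    unfold entC upC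
    rw [if_neg (by omega), if_pos (by omega), if_pos rfl]
    simp

/-- the list of the cycle -/
def T8f (A : List (List Bool)) (l : List ℕ) : List ℕ :=
  0 :: (l.map (· + 1) ++ [A.length + 1])

theorem T8_range (n : ℕ) : List.range (n + 2) = 0 :: ((List.range n).map (· + 1) ++ [n + 1]) := by
  rw [List.range_succ_eq_map, List.range_succ, List.map_append]
  rfl

theorem T8_chain (A : List (List Bool)) (h : IsTour A) {l : List ℕ}
    (hl : ∀ x ∈ l, x < A.length) :
    (l.map (· + 1)).IsChain (fun i j => ent (TC A) i j = true) ↔
      l.IsChain (fun i j => ent A i j = true) := by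
  rw [List.isChain_map]
  apply List.IsChain.iff_of_mem_imp
  intro a b ha hb
  rw [T8_inner A h (hl a ha) (hl b hb)]

theorem T8_forward (A : List (List Bool)) (h : IsTour A) (hA : A ≠ []) {l : List ℕ}
    (h1 : l.Perm (List.range A.length)) (h2 : l.IsChain (fun i j => ent A i j = true)) :
    (T8f A l).Perm (List.range (TC A).length) ∧
      (T8f A l).IsChain (fun i j => ent (TC A) i j = true) ∧
      (T8f A l).head? = some 0 ∧ ∃ v, (T8f A l).getLast? = some v ∧ ent (TC A) v 0 = true := by
  have hmem : ∀ x ∈ l, x < A.length := fun x hx => List.mem_range.1 (h1.mem_iff.1 hx)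
  refine ⟨?_, ?_, rfl, A.length + 1, ?_, (T8_to_zero A _).2 rfl⟩
  · rw [T8_length, T8_range]
    exact List.Perm.cons _ ((h1.map _).append_right _)
  · unfold T8f
    rw [List.isChain_cons]
    constructor
    · intro y hy
      cases l with
      | nil =>
        have h3 := h1.length_eq
        rw [List.length_range, List.length_nil] at h3
        exact absurd (List.length_eq_zero_iff.1 h3.symm) hA
      | cons a l =>
        simp only [List.map_cons, List.cons_append, List.head?_cons, Option.mem_def,
          Option.some.injEq] at hy
        rw [← hy]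
        exact T8_zero A (hmem a (List.mem_cons_self))
    · rw [List.isChain_append]
      refine ⟨(T8_chain A h hmem).2 h2, List.isChain_singleton _, ?_⟩
      intro x hx y hy
      simp only [List.head?_cons, Option.mem_def, Option.some.injEq] at hy
      rw [← hy]
      have h3 : x ∈ l.map (· + 1) := List.mem_of_mem_getLast? hx
      rw [List.mem_map] at h3
      obtain ⟨a, ha, rfl⟩ := h3
      exact T8_last A (hmem a ha)
  · unfold T8f
    rw [← List.cons_append, List.getLast?_append]
    simp

theorem T8_backward (A : List (List Bool)) (h : IsTour A) {l : List ℕ}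
    (h1 : l.Perm (List.range (TC A).length))
    (h2 : l.IsChain (fun i j => ent (TC A) i j = true)) (h3 : l.head? = some 0)
    (h4 : ∃ v, l.getLast? = some v ∧ ent (TC A) v 0 = true) :
    ∃ l' : List ℕ, (l'.Perm (List.range A.length) ∧
      l'.IsChain (fun i j => ent A i j = true)) ∧ T8f A l' = l := by
  obtain ⟨v, hv, hv0⟩ := h4
  rw [T8_to_zero] at hv0
  subst hv0
  cases l with
  | nil => simp at h3
  | cons a t =>
    simp only [List.head?_cons, Option.some.injEq] at h3
    subst h3
    rcases List.eq_nil_or_concat t with ht | ⟨t', b, ht⟩
    · subst ht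
      simp at hv
    · rw [List.concat_eq_append] at ht
      subst ht
      have hb : b = A.length + 1 := by
        rw [← List.cons_append, List.getLast?_append] at hv
        simpa using hv
      subst hb
      rw [T8_length, T8_range] at h1
      have h5 : t'.Perm ((List.range A.length).map (· + 1)) :=
        (List.perm_append_right_iff _).1 ((List.perm_cons 0).1 h1)
      have h6 : ∀ x ∈ t', ∃ y < A.length, y + 1 = x := by
        intro x hx
        have h7 := h5.mem_iff.1 hx
        rw [List.mem_map] at h7
        obtain ⟨y, hy, hyx⟩ := h7
        exact ⟨y, List.mem_range.1 hy, hyx⟩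
      have h8 : (t'.map (· - 1)).map (· + 1) = t' := by
        rw [List.map_map]
        conv_rhs => rw [← List.map_id t']
        apply List.map_congr_left
        intro x hx
        obtain ⟨y, _, rfl⟩ := h6 x hx
        simp
      have h9 : (t'.map (· - 1)).Perm (List.range A.length) := by
        have h10 := h5.map (· - 1)
        rw [List.map_map] at h10
        have h11 : (List.range A.length).map ((· - 1) ∘ (· + 1)) = List.range A.length := by
          conv_rhs => rw [← List.map_id (List.range A.length)]
          apply List.map_congr_left
          intro x _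
          simp
        rwa [h11] at h10
      refine ⟨t'.map (· - 1), ⟨h9, ?_⟩, ?_⟩
      · rw [← T8_chain A h (fun x hx => List.mem_range.1 (h9.mem_iff.1 hx)), h8]
        exact (List.isChain_append.1 (List.isChain_cons.1 h2).2).1
      · unfold T8f
        rw [h8]

theorem T8f_inj (A : List (List Bool)) {l l' : List ℕ} (h : T8f A l = T8f A l') : l = l' := by
  unfold T8f at h
  rw [List.cons.injEq] at h
  have h1 := List.append_cancel_right h.2
  exact List.map_injective_iff.2 (fun a b hab => Nat.succ_injective hab) h1

theorem hc_TC (A : List (List Bool)) (h : IsTour A) (hA : A ≠ []) : hc (TC A) = hp A := by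
  unfold hc hp
  symm
  refine Nat.card_congr (Equiv.ofBijective
    (fun l => ⟨T8f A l.1, T8_forward A h hA l.2.1 l.2.2⟩) ⟨?_, ?_⟩)
  · intro l l' hl
    exact Subtype.ext (T8f_inj A (congrArg Subtype.val hl))
  · rintro ⟨l, h1, h2, h3, h4⟩
    obtain ⟨l', h5, h6⟩ := T8_backward A h h1 h2 h3 h4
    exact ⟨⟨l', h5⟩, Subtype.ext h6⟩

end Pool.Agent.H549R2.TO
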