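import Pool.Agent.H549R2.TO.Defs

/-! T9 (helper546): minimal feedback arc sets of a tournament are the Hamiltonian paths. -/

namespace Pool.Agent.H549R2.TO

open Pool.Agent.H549R2.Convex

/-- a strictly increasing rank excludes directed cycles -/
theorem acyc_of_rank (E : Finset (ℕ × ℕ)) (f : ℕ → ℕ) (h : ∀ a b, (a, b) ∈ E → f a < f b) :
    Acyc E := by
  intro v hv
  have key : ∀ a b, Relation.TransGen (fun a b => (a, b) ∈ E) a b → f a < f b := by
    intro a b hab
    induction hab with
    | single h1 => exact h _ _ h1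
    | tail _ h1 ih => exact ih.trans (h _ _ h1)
  exact lt_irrefl _ (key v v hv)

/-- topological sorting -/
theorem topo (E : Finset (ℕ × ℕ)) (hE : Acyc E) (n : ℕ) : ∀ V : Finset ℕ, V.card = n →
    ∃ l : List ℕ, l.Nodup ∧ l.toFinset = V ∧ l.Pairwise (fun a b => (b, a) ∉ E) := by
  induction n with
  | zero =>
    intro V hV
    rw [Finset.card_eq_zero] at hV
    subst hV
    exact ⟨[], List.nodup_nil, by simp, List.Pairwise.nil⟩
  | succ n ih =>
    intro V hV
    let R : V → V → Prop := fun a b =>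
      Relation.TransGen (fun a b => (a, b) ∈ E) (a : ℕ) (b : ℕ)
    haveI : IsTrans V R := ⟨fun a b c hab hbc => Relation.TransGen.trans hab hbc⟩
    haveI : Std.Irrefl R := ⟨fun a ha => hE a ha⟩
    have hwf : WellFounded R := Finite.wellFounded_of_trans_of_irrefl R
    have hne : V.Nonempty := by
      rw [← Finset.card_pos]
      omega
    obtain ⟨w, hw⟩ := hne
    obtain ⟨v, -, hv⟩ := hwf.has_min Set.univ ⟨⟨w, hw⟩, trivial⟩
    obtain ⟨l, hnd, hl, hp⟩ := ih (V.erase v) (by
      rw [Finset.card_erase_of_mem v.2]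
      omega)
    have hvl : (v : ℕ) ∉ l := by
      rw [← List.mem_toFinset, hl]
      exact Finset.notMem_erase _ _
    refine ⟨(v : ℕ) :: l, List.nodup_cons.2 ⟨hvl, hnd⟩, ?_, List.pairwise_cons.2 ⟨?_, hp⟩⟩
    · rw [List.toFinset_cons, hl]
      exact Finset.insert_erase v.2
    · intro b hb hbv
      have hbV : b ∈ V := by
        rw [← List.mem_toFinset, hl] at hb
        exact (Finset.mem_erase.1 hb).2
      exact hv ⟨b, hbV⟩ trivial (Relation.TransGen.single hbv)

/-- the arcs which go backwards in the list -/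
def bk (A : List (List Bool)) (l : List ℕ) : Finset (ℕ × ℕ) :=
  (arcs A).filter (fun p => l.idxOf p.2 < l.idxOf p.1)

theorem mem_arcs (A : List (List Bool)) (a b : ℕ) :
    (a, b) ∈ arcs A ↔ a < A.length ∧ b < A.length ∧ ent A a b = true := by
  unfold arcs
  rw [Finset.mem_filter, Finset.mem_product, Finset.mem_range, Finset.mem_range]
  tauto

theorem mem_bk (A : List (List Bool)) (l : List ℕ) (a b : ℕ) :
    (a, b) ∈ bk A l ↔ (a, b) ∈ arcs A ∧ l.idxOf b < l.idxOf a := by
  unfold bk
  rw [Finset.mem_filter]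

section

variable {A : List (List Bool)} (h : IsTour A) {l : List ℕ} (hl : l.Perm (List.range A.length))
include hl

theorem t9_nodup : l.Nodup := hl.nodup_iff.2 List.nodup_range

theorem t9_mem {a : ℕ} : a ∈ l ↔ a < A.length := by
  rw [hl.mem_iff, List.mem_range]

theorem t9_len : l.length = A.length := by
  rw [hl.length_eq, List.length_range]

theorem t9_idx {i : ℕ} (hi : i < l.length) : l.idxOf l[i] = i :=
  (t9_nodup hl).idxOf_getElem i hi

theorem t9_ne {a b : ℕ} (ha : a < A.length) (hab : a ≠ b) : l.idxOf a ≠ l.idxOf b := by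
  intro he
  exact hab ((List.idxOf_inj ((t9_mem hl).2 ha)).1 he)

theorem t9_get {a : ℕ} (ha : a < A.length) : ∃ (i : ℕ) (hi : i < l.length), l.idxOf a = i ∧
    l[i] = a := by
  have hm := (t9_mem hl).2 ha
  have hlt := List.idxOf_lt_length_iff.2 hm
  exact ⟨l.idxOf a, hlt, rfl, List.getElem_idxOf hlt⟩

include h

theorem t9_arc_ne {a b : ℕ} (hab : (a, b) ∈ arcs A) : a ≠ b := by
  rw [mem_arcs] at hab
  exact ((h.2 a hab.1 b hab.2.1).1 hab.2.2).1

theorem t9_fas : IsFAS A (bk A l) := by
  refine ⟨Finset.filter_subset _ _, acyc_of_rank _ (fun v => l.idxOf v) ?_⟩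
  intro a b hab
  rw [Finset.mem_sdiff, mem_bk] at hab
  have h1 : a ≠ b := t9_arc_ne h hl hab.1
  have h2 := t9_ne hl ((mem_arcs A a b).1 hab.1).1 h1
  have h3 : ¬ l.idxOf b < l.idxOf a := fun h4 => hab.2 ⟨hab.1, h4⟩
  change l.idxOf a < l.idxOf b
  omega

/-- arcs which are not between neighbours in the list can be removed from the order -/
theorem t9_chain (hmin : ∀ S', S' ⊂ bk A l → ¬ IsFAS A S') :
    l.IsChain (fun i j => ent A i j = true) := by
  rw [List.isChain_iff_getElem]
  intro i hi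
  by_contra hcon
  have hlen := t9_len hl
  have hi1 : l.idxOf l[i] = i := t9_idx hl (by omega)
  have hi2 : l.idxOf l[i + 1] = i + 1 := t9_idx hl hi
  have hm1 : l[i] < A.length := (t9_mem hl).1 (List.getElem_mem _)
  have hm2 : l[i + 1] < A.length := (t9_mem hl).1 (List.getElem_mem _)
  have hne : l[i + 1] ≠ l[i] := by
    intro he
    rw [he] at hi2
    omega
  have harc : ent A l[i + 1] l[i] = true :=
    (h.2 _ hm2 _ hm1).2 ⟨hne, by simpa using hcon⟩
  have hbk : (l[i + 1], l[i]) ∈ bk A l := by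
    rw [mem_bk, mem_arcs]
    exact ⟨⟨hm2, hm1, harc⟩, by omega⟩
  refine hmin ((bk A l).erase (l[i + 1], l[i])) (Finset.erase_ssubset hbk) ⟨?_, ?_⟩
  · exact (Finset.erase_subset _ _).trans (Finset.filter_subset _ _)
  · refine acyc_of_rank _ (fun v => if l.idxOf v = i then i + 1 else if l.idxOf v = i + 1 then i
      else l.idxOf v) ?_
    intro a b hab
    rw [Finset.mem_sdiff, Finset.mem_erase, mem_bk] at hab
    have hab1 := hab.1
    rw [mem_arcs] at hab1
    by_cases hcase : (a, b) = (l[i + 1], l[i])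
    · rw [Prod.mk.injEq] at hcase
      change (if l.idxOf a = i then i + 1 else if l.idxOf a = i + 1 then i else l.idxOf a) <
        (if l.idxOf b = i then i + 1 else if l.idxOf b = i + 1 then i else l.idxOf b)
      rw [hcase.1, hcase.2, hi1, hi2]
      simp
    · have h3 : ¬ l.idxOf b < l.idxOf a := fun h4 => hab.2 ⟨hcase, hab.1, h4⟩
      have h1 : a ≠ b := t9_arc_ne h hl hab.1
      have h2 := t9_ne hl hab1.1 h1
      have h5 : ¬ (l.idxOf a = i ∧ l.idxOf b = i + 1) := by
        rintro ⟨ha, hb⟩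
        obtain ⟨i', hi', hia, hga⟩ := t9_get hl hab1.1
        obtain ⟨j', hj', hjb, hgb⟩ := t9_get hl hab1.2.1
        have e1 : i' = i := by omega
        have e2 : j' = i + 1 := by omega
        subst e1
        subst e2
        rw [hga, hgb] at hcon
        exact hcon hab1.2.2
      change (if l.idxOf a = i then i + 1 else if l.idxOf a = i + 1 then i else l.idxOf a) <
        (if l.idxOf b = i then i + 1 else if l.idxOf b = i + 1 then i else l.idxOf b)
      split_ifs <;> omega

theorem t9_min (hc : l.IsChain (fun i j => ent A i j = true)) :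
    ∀ S', S' ⊂ bk A l → ¬ IsFAS A S' := by
  intro S' hS' hF
  obtain ⟨hsub, ⟨a, b⟩, hab, habS⟩ := Finset.ssubset_iff_of_subset hS'.1 |>.1 hS' |> fun ⟨x, hx, hx'⟩ =>
    (⟨hS'.1, x, hx, hx'⟩ : S' ⊆ bk A l ∧ ∃ x, x ∈ bk A l ∧ x ∉ S')
  rw [mem_bk] at hab
  have hab1 := hab.1
  rw [mem_arcs] at hab1
  rw [List.isChain_iff_getElem] at hc
  have path : ∀ (k i : ℕ) (hk : i + k + 1 < l.length),
      Relation.TransGen (fun a b => (a, b) ∈ arcs A \ S') l[i] l[i + k + 1] := by
    intro k
    induction k with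
    | zero =>
      intro i hk
      refine Relation.TransGen.single ?_
      rw [Finset.mem_sdiff, mem_arcs]
      refine ⟨⟨(t9_mem hl).1 (List.getElem_mem _), (t9_mem hl).1 (List.getElem_mem _), hc i hk⟩,
        fun hin => ?_⟩
      have := ((mem_bk A l _ _).1 (hsub hin)).2
      rw [t9_idx hl (by omega), t9_idx hl (by omega)] at this
      omega
    | succ k ih =>
      intro i hk
      refine Relation.TransGen.tail (ih i (by omega)) ?_
      rw [Finset.mem_sdiff, mem_arcs]
      refine ⟨⟨(t9_mem hl).1 (List.getElem_mem _), (t9_mem hl).1 (List.getElem_mem _),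
        hc (i + k + 1) hk⟩, fun hin => ?_⟩
      have := ((mem_bk A l _ _).1 (hsub hin)).2
      rw [t9_idx hl (by omega), t9_idx hl (by omega)] at this
      omega
  obtain ⟨i, hi, hia, hga⟩ := t9_get hl hab1.2.1
  obtain ⟨j, hj, hjb, hgb⟩ := t9_get hl hab1.1
  have hij : i < j := by omega
  obtain ⟨k, hk⟩ : ∃ k, j = i + k + 1 := ⟨j - i - 1, by omega⟩
  subst hk
  have hp := path k i hj
  rw [hga, hgb] at hp
  refine hF.2 b (Relation.TransGen.tail hp ?_)
  rw [Finset.mem_sdiff]
  exact ⟨hab.1, habS⟩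

theorem t9_order {a b : ℕ} (ha : a < A.length) (hb : b < A.length) :
    l.idxOf a < l.idxOf b ↔ (a ≠ b ∧ ((a, b) ∈ arcs A → (a, b) ∉ bk A l) ∧
      ((b, a) ∈ arcs A → (b, a) ∈ bk A l)) := by
  rw [mem_bk, mem_bk]
  constructor
  · intro hlt
    refine ⟨?_, fun _ h2 => ?_, fun h1 => ⟨h1, hlt⟩⟩
    · rintro rfl
      omega
    · omega
  · rintro ⟨hne, h1, h2⟩
    have h3 := t9_ne hl ha hne
    by_cases hab : ent A a b = true
    · have h4 : (a, b) ∈ arcs A := (mem_arcs A a b).2 ⟨ha, hb, hab⟩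
      have h5 : ¬ l.idxOf b < l.idxOf a := fun h6 => h1 h4 ⟨h4, h6⟩
      omega
    · have h4 : ent A b a = true := (h.2 b hb a ha).2 ⟨hne.symm, by simpa using hab⟩
      exact (h2 ((mem_arcs A b a).2 ⟨hb, ha, h4⟩)).2

end

/-- In a tournament the inclusion-minimal feedback arc sets correspond to the Hamiltonian paths. -/
theorem mf_eq (A : List (List Bool)) (h : IsTour A) : mf A = hp A := by
  unfold mf hp
  symm
  refine Nat.card_congr (Equiv.ofBijective (fun l => ⟨bk A l.1, t9_fas h l.2.1,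
    t9_min h l.2.1 l.2.2⟩) ⟨?_, ?_⟩)
  · rintro ⟨l, hl, hc⟩ ⟨l', hl', hc'⟩ he
    have he' : bk A l = bk A l' := congrArg Subtype.val he
    apply Subtype.ext
    change l = l'
    have ho : ∀ a b, a < A.length → b < A.length →
        (l.idxOf a < l.idxOf b ↔ l'.idxOf a < l'.idxOf b) := by
      intro a b ha hb
      rw [t9_order h hl ha hb, t9_order h hl' ha hb, he']
    have hp1 : ∀ {m : List ℕ}, m.Perm (List.range A.length) →
        m.Pairwise (fun a b => m.idxOf a < m.idxOf b) := by
      intro m hm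
      rw [List.pairwise_iff_getElem]
      intro i j hi hj hij
      rw [t9_idx hm hi, t9_idx hm hj]
      exact hij
    refine List.Perm.eq_of_pairwise (le := fun a b => l.idxOf a < l.idxOf b) ?_ (hp1 hl) ?_
      (hl.trans hl'.symm)
    · intro a b _ _ h1 h2
      omega
    · refine List.Pairwise.imp_of_mem ?_ (hp1 hl')
      intro a b ha hb hab
      exact (ho a b ((t9_mem hl').1 ha) ((t9_mem hl').1 hb)).2 hab
  · rintro ⟨S, hS, hmin⟩
    obtain ⟨l, hnd, hlV, hp⟩ := topo (arcs A \ S) hS.2 _ (Finset.range A.length) rfl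
    have hl : l.Perm (List.range A.length) := by
      refine List.perm_of_nodup_nodup_toFinset_eq hnd List.nodup_range ?_
      rw [hlV]
      ext a
      simp
    rw [List.pairwise_iff_getElem] at hp
    have hsub : bk A l ⊆ S := by
      rintro ⟨a, b⟩ hab
      rw [mem_bk] at hab
      have hab1 := hab.1
      rw [mem_arcs] at hab1
      obtain ⟨i, hi, hia, hga⟩ := t9_get hl hab1.2.1
      obtain ⟨j, hj, hjb, hgb⟩ := t9_get hl hab1.1
      have h1 := hp i j hi hj (by omega)
      rw [hga, hgb, Finset.mem_sdiff, not_and, not_not] at h1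
      exact h1 hab.1
    have heq : bk A l = S := by
      by_contra hne
      exact hmin _ (Finset.ssubset_iff_subset_ne.2 ⟨hsub, hne⟩) (t9_fas h hl)
    refine ⟨⟨l, hl, t9_chain h hl (by rw [heq]; exact hmin)⟩, Subtype.ext heq⟩

end Pool.Agent.H549R2.TO
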