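import Pool.Agent.H549R2.NRed
import Pool.Agent.H549R2.TO.M1
import Pool.Agent.H549R2.TO.T8
import Pool.Agent.H549R2.TO.T9
import Pool.Agent.H549R2.TO.P1
import Pool.Agent.H549R2.TO.P2
import Pool.Agent.H549R2.TO.P3

/-!
# Counting Hamiltonian paths of tournaments: the reductions
-/

namespace Pool.Agent.NPC.H549TO

open Pool.Agent.H549R2.Convex Pool.Agent.H549R2.TO Pool.Agent.NPC.Cnt Pool.Agent.NPC.H549NRed
open Pool.Agent.NPC.H549Convex (LL sqB)

/-- tournaments whose vertices split into two consecutive transitive chains -/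
def TT2 (A : LL) : Prop := IsTour A ∧ TwoChain A

/-- the queries of the first reduction -/
def qs1 (B : LL) : List LL :=
  (List.range (B.length + 2)).map (fun m => TT B (min m (B.length + 1)))

theorem qs1_poly : Poly qs1 :=
  Poly.map (F := fun (B : LL) m => TT B (min m (B.length + 1)))
    (UPoly.add (UPoly.length Poly.id) (UPoly.const 2)).range TT_poly

theorem hsum_congr (K : ℕ) (h h' : ℕ → ℕ) (b : ℕ) (hh : ∀ m ≤ K, h m = h' m) :
    hsum K h b = hsum K h' b := by
  rw [hsum, hsum]
  congr 1
  refine List.map_congr_left fun m hm => ?_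
  rw [List.mem_range] at hm
  rw [hh m (by omega)]

theorem post1_correct (B : LL) : post1 (B, (qs1 B).map hp) = F B := by
  rw [post1]
  simp only
  cases hs : sqB B with
  | false =>
    rw [cond_false]
    rw [F, if_neg]
    intro h
    have : sqB B = true := by
      rw [sqB, List.all_eq_true]
      intro r hr
      exact decide_eq_true (h r hr)
    rw [this] at hs
    exact absurd hs (by decide)
  | true =>
    rw [cond_true]
    have h : ∀ r ∈ B, r.length = B.length := by
      rw [sqB, List.all_eq_true] at hs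
      intro r hr
      exact of_decide_eq_true (hs r hr)
    have h1 : ∀ m ≤ B.length + 1, ((qs1 B).map hp).getD m 0 = hp (TT B m) := by
      intro m hm
      rw [qs1, List.map_map, List.getD_eq_getElem _ _ (by simp; omega), List.getElem_map,
        List.getElem_range, Function.comp, Nat.min_eq_left hm]
    rw [hsum_congr _ _ (fun m => hp (TT B m)) 0 h1, hsum_congr _ _ (fun m => hp (TT B m)) 1 h1]
    have h2 := main_id B h
    have h3 : hsum (B.length + 1) (fun m => hp (TT B m)) 0 -
        hsum (B.length + 1) (fun m => hp (TT B m)) 1 =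
        (B.length + 1).factorial * B.length.factorial * F B := by
      omega
    rw [h3, Nat.mul_div_cancel_left _ (by positivity)]

/-- the 0-1 permanent reduces to Hamiltonian paths of tournaments -/
theorem nred_F_hp : NRed (fun _ : LL => True) F TT2 hp := by
  refine ⟨qs1, post1, qs1_poly, post1_poly, fun B _ => ⟨?_, post1_correct B⟩⟩
  intro A hA
  rw [qs1, List.mem_map] at hA
  obtain ⟨m, _, rfl⟩ := hA
  exact ⟨isTour_TT _ _, twoChain_TT _ _⟩

theorem hp_nil : hp [] = 1 := by
  rw [hp, Nat.card_eq_one_iff_unique]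
  refine ⟨⟨fun a b => Subtype.ext ?_⟩, ⟨⟨[], List.Perm.refl _, List.isChain_nil⟩⟩⟩
  obtain ⟨a, ha, _⟩ := a
  obtain ⟨b, hb, _⟩ := b
  rw [List.length_nil, List.range_zero, List.perm_nil] at ha hb
  exact ha.trans hb.symm

/-- Hamiltonian paths reduce to Hamiltonian cycles -/
theorem nred_hp_hc : NRed TT2 hp TT2 hc := by
  refine ⟨fun A => [TC A], fun p => cond (decide (p.1.length = 0)) 1 (p.2.getD 0 0), ?_, ?_, ?_⟩
  · exact Poly.cons TC_poly (Poly.const [])
  · exact Poly.cond (Poly.decide_eq (Poly.length (Poly.fst Poly.id)) (Poly.const 0))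
      (Poly.const 1) (Poly.getD (Poly.snd Poly.id) (Poly.const 0) (Poly.const 0))
  · rintro A ⟨h1, h2⟩
    constructor
    · intro b hb
      rw [List.mem_singleton] at hb
      rw [hb]
      exact ⟨isTour_TC A h1, twoChain_TC A h1 h2⟩
    · simp only [List.map_cons, List.map_nil, List.getD_cons_zero]
      by_cases h0 : A.length = 0
      · rw [List.length_eq_zero_iff] at h0
        rw [h0]
        simp [hp_nil]
      · rw [decide_eq_false h0, cond_false]
        refine hc_TC A h1 ?_
        rintro rfl
        exact h0 rfl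

/-- Hamiltonian paths reduce to minimal feedback arc sets -/
theorem nred_hp_mf : NRed TT2 hp TT2 mf := by
  refine ⟨fun A => [A], fun p => p.2.getD 0 0, Poly.cons Poly.id (Poly.const []),
    Poly.getD (Poly.snd Poly.id) (Poly.const 0) (Poly.const 0), ?_⟩
  intro A hA
  refine ⟨fun b hb => ?_, ?_⟩
  · rw [List.mem_singleton] at hb
    rw [hb]
    exact hA
  · simp only [List.map_cons, List.map_nil, List.getD_cons_zero]
    exact mf_eq A hA.1

theorem nred_sat_hp : NRed (fun _ : CNF ℕ => True) (fun φ => satCount φ) TT2 hp :=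
  nred_sat.comp nred_F_hp

theorem nred_sat_hc : NRed (fun _ : CNF ℕ => True) (fun φ => satCount φ) TT2 hc :=
  nred_sat_hp.comp nred_hp_hc

theorem nred_sat_mf : NRed (fun _ : CNF ℕ => True) (fun φ => satCount φ) TT2 mf :=
  nred_sat_hp.comp nred_hp_mf

end Pool.Agent.NPC.H549TO
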