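import Pool.Agent.H549R2.TO.M2

/-!
# Counting Hamiltonian paths of tournaments is `#P`-complete
-/

namespace Pool.Agent.NPC.H549TO

open Pool.Agent.H549R2.Convex Pool.Agent.H549R2.TO Pool.Agent.NPC.Cnt Pool.Agent.NPC.H549NRed
open Pool.Agent.NPC.H549Convex (LL sqB)

open Classical in
/-- `f` on the lists with property `P`; other inputs have value `0` -/
noncomputable def onProp (P : LL → Prop) (f : LL → ℕ) (A : LL) : ℕ := if P A then f A else 0

section Membership

/-- counting certificates -/
theorem sharpP_cert (P : LL → Prop) (PB : LL → Bool) (hPB : ∀ A, PB A = true ↔ P A)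
    (hp : Poly PB) (C : LL → List ℕ → Bool) (hC : Poly (fun z : LL × List ℕ => C z.1 z.2))
    (hsize : ∀ A w, C A w = true → certP A w = true) (f : LL → ℕ)
    (hf : ∀ A, P A → Nat.card {w : List ℕ // C A w = true} = f A) :
    SharpP (strFn (onProp P f)) := by
  have h := sharpP_typed (fun (A : LL) (w : List ℕ) => PB A && C A w)
    (Poly.and (hp.comp (Poly.fst Poly.id)) hC)
    (Polynomial.X * (Polynomial.C 4 * Polynomial.X + Polynomial.C 2) + Polynomial.C 1) ?_
  · have e : (fun A : LL => Nat.card {w : List ℕ // (PB A && C A w) = true}) = onProp P f := by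
      funext A
      rw [onProp]
      by_cases hA : P A
      · rw [if_pos hA, ← hf A hA]
        refine Nat.card_congr (Equiv.subtypeEquivRight fun w => ?_)
        rw [(hPB A).2 hA, Bool.true_and]
      · rw [if_neg hA]
        have h1 : PB A = false := by
          rw [← hPB] at hA
          exact Bool.eq_false_iff.2 hA
        have h2 : IsEmpty {w : List ℕ // (PB A && C A w) = true} :=
          ⟨fun w => by
            obtain ⟨w, hw⟩ := w
            rw [h1] at hw
            simp at hw⟩
        exact Nat.card_of_isEmpty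
    rw [e] at h
    exact h
  · intro A w hc
    rw [Bool.and_eq_true] at hc
    exact certP_size A w (hsize A w hc.2)

theorem card_certP (A : LL) : Nat.card {w : List ℕ // certP A w = true} = hp A := by
  rw [hp]
  exact Nat.card_congr (Equiv.subtypeEquivRight fun w => certP_iff A w)

theorem card_certC (A : LL) : Nat.card {w : List ℕ // certC A w = true} = hc A := by
  rw [hc]
  exact Nat.card_congr (Equiv.subtypeEquivRight fun w => certC_iff A w)

theorem certC_certP (A : LL) (w : List ℕ) (h : certC A w = true) : certP A w = true := by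
  rw [certC, Bool.and_eq_true, Bool.and_eq_true, Bool.and_eq_true] at h
  exact h.1.1.1

theorem tt2_iff (A : LL) : (tourB A && twoB A) = true ↔ TT2 A := by
  rw [Bool.and_eq_true, tourB_iff, twoB_iff, TT2]

theorem sharpP_hp : SharpP (strFn (onProp IsTour hp)) :=
  sharpP_cert IsTour tourB tourB_iff tourB_poly certP certP_poly (fun _ _ h => h) hp
    (fun A _ => card_certP A)

theorem sharpP_hp2 : SharpP (strFn (onProp TT2 hp)) :=
  sharpP_cert TT2 (fun A => tourB A && twoB A) tt2_iff (Poly.and tourB_poly twoB_poly) certP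
    certP_poly (fun _ _ h => h) hp (fun A _ => card_certP A)

theorem sharpP_hc : SharpP (strFn (onProp IsTour hc)) :=
  sharpP_cert IsTour tourB tourB_iff tourB_poly certC certC_poly certC_certP hc
    (fun A _ => card_certC A)

theorem sharpP_hc2 : SharpP (strFn (onProp TT2 hc)) :=
  sharpP_cert TT2 (fun A => tourB A && twoB A) tt2_iff (Poly.and tourB_poly twoB_poly) certC
    certC_poly certC_certP hc (fun A _ => card_certC A)

theorem sharpP_mf : SharpP (strFn (onProp IsTour mf)) :=
  sharpP_cert IsTour tourB tourB_iff tourB_poly certP certP_poly (fun _ _ h => h) mf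
    (fun A hA => (card_certP A).trans (mf_eq A hA).symm)

theorem sharpP_mf2 : SharpP (strFn (onProp TT2 mf)) :=
  sharpP_cert TT2 (fun A => tourB A && twoB A) tt2_iff (Poly.and tourB_poly twoB_poly) certP
    certP_poly (fun _ _ h => h) mf (fun A hA => (card_certP A).trans (mf_eq A hA.1).symm)

end Membership

section Size

theorem card_perm_le (n : ℕ) (Q : List ℕ → Prop) :
    Nat.card {l : List ℕ // l.Perm (List.range n) ∧ Q l} ≤ n ^ n := by
  have h1 : Nat.card {l : List ℕ // l.Perm (List.range n) ∧ Q l} ≤
      Nat.card {l : List ℕ // l ∈ (List.range n).permutations.toFinset} := by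
    refine Nat.card_le_card_of_injective (fun l => ⟨l.1, ?_⟩) ?_
    · rw [List.mem_toFinset, List.mem_permutations]
      exact l.2.1
    · intro a b hab
      rw [Subtype.mk.injEq] at hab
      exact Subtype.ext hab
  have h2 : Nat.card {l : List ℕ // l ∈ (List.range n).permutations.toFinset} ≤ n.factorial := by
    rw [Nat.card_eq_fintype_card, Fintype.card_coe]
    refine (List.toFinset_card_le _).trans ?_
    rw [List.length_permutations, List.length_range]
  exact (h1.trans h2).trans (Nat.factorial_le_pow _)

theorem size_pow (n v : ℕ) (h : v ≤ n ^ n) : v.size ≤ n * n + 1 := by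
  have h3 : n ^ n ≤ (2 ^ n) ^ n := Nat.pow_le_pow_left (Nat.lt_two_pow_self).le _
  rw [← pow_mul] at h3
  have h4 : 2 ^ (n * n) < 2 ^ (n * n + 1) := Nat.pow_lt_pow_right (by norm_num) (by omega)
  rw [Nat.size_le]
  omega

theorem size_bound (P : LL → Prop) (f : LL → ℕ) (hf : ∀ A, P A → f A ≤ A.length ^ A.length)
    (A : LL) : (onProp P f A).size ≤
      (Polynomial.X * Polynomial.X + Polynomial.C 1 : Polynomial ℕ).eval (sz A) := by
  have h1 : (onProp P f A).size ≤ A.length * A.length + 1 := by
    rw [onProp]
    split_ifs with h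
    · exact size_pow _ _ (hf A h)
    · simp
  have h2 := length_lt_sz A
  simp only [Polynomial.eval_add, Polynomial.eval_mul, Polynomial.eval_X, Polynomial.eval_C]
  have := Nat.mul_le_mul h2.le h2.le
  omega

theorem hp_le (A : LL) : hp A ≤ A.length ^ A.length := card_perm_le _ _

theorem hc_le (A : LL) : hc A ≤ A.length ^ A.length := card_perm_le _ _

theorem mf_le (A : LL) (h : IsTour A) : mf A ≤ A.length ^ A.length := by
  rw [mf_eq A h]
  exact hp_le A

end Size

section Main

theorem hard_prop {f : LL → ℕ}
    (h : NRed (fun _ : CNF ℕ => True) (fun φ => satCount φ) TT2 f) (P : LL → Prop)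
    (hP : ∀ A, TT2 A → P A) (hf : ∀ A, P A → f A ≤ A.length ^ A.length) :
    SharpPHard (strFn (onProp P f)) :=
  hard_of_nred h (g := onProp P f) (fun A hA => by rw [onProp, if_pos (hP A hA)]) _
    (size_bound P f hf)

theorem fp_iff_prop {f : LL → ℕ}
    (h : NRed (fun _ : CNF ℕ => True) (fun φ => satCount φ) TT2 f)
    (hs : SharpP (strFn (onProp TT2 f))) :
    (∀ k : List Bool → ℕ, SharpP k → FP k) ↔
    ∃ g : List Bool → List Bool, PolyTime g ∧
      ∀ A : LL, IsTour A → TwoChain A → g (bits A) = (f A).bits := by
  constructor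
  · intro hk
    exact ⟨_, hk _ hs, fun A h1 h2 => by
      rw [strFn_bits, onProp, if_pos (show TT2 A from ⟨h1, h2⟩)]⟩
  · rintro ⟨g, hg, hgf⟩ k hk
    exact sharpP_le_of_nred h ⟨g, hg, fun A hA => hgf A hA.1 hA.2⟩ k hk

end Main

end Pool.Agent.NPC.H549TO
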