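import Pool.Agent.H549R2.TO.Defs

namespace Pool.Agent.H549R2.TO

open Polynomial

theorem Ev_add (j : ℕ) (p q : ℤ[X]) : Ev j (p + q) = Ev j p + Ev j q := by
  unfold Ev
  exact Polynomial.sum_add_index p q _ (fun i => by simp) (fun a b₁ b₂ => by ring)

theorem Ev_monomial (j a : ℕ) (c : ℤ) : Ev j (monomial a c) = c * (a : ℤ) ^ j := by
  unfold Ev
  exact Polynomial.sum_monomial_index _ _ (by simp)

theorem Ev_zero (j : ℕ) : Ev j 0 = 0 := by
  unfold Ev
  exact Polynomial.sum_zero_index _

theorem Ev_gapP (j : ℕ) (al go : Bool) :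
    Ev j (gapP al go) = if j = 0 then (if go then 1 else 0) else (if al then 1 else 0) := by
  have hX : Ev j (X : ℤ[X]) = 1 := by
    rw [← monomial_one_one_eq_X, Ev_monomial]; simp
  have h1 : Ev j (1 : ℤ[X]) = if j = 0 then 1 else 0 := by
    have : (1 : ℤ[X]) = monomial 0 1 := rfl
    rw [this, Ev_monomial]
    by_cases hj : j = 0
    · simp [hj]
    · simp [hj]
  have hsub : ∀ p q : ℤ[X], Ev j (p - q) = Ev j p - Ev j q := by
    intro p q
    have := Ev_add j (p - q) q
    rw [sub_add_cancel] at this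
    linarith
  unfold gapP
  rw [hsub]
  by_cases hj : j = 0
  · subst hj
    rw [if_pos rfl] at h1
    cases al <;> cases go <;> simp [hX, h1, Ev_zero]
  · rw [if_neg hj] at h1
    cases al <;> cases go <;> simp [hX, h1, hj, Ev_zero]

theorem Ev_mul (j : ℕ) (p q : ℤ[X]) :
    Ev j (p * q) = ∑ i ∈ Finset.range (j + 1), (j.choose i : ℤ) * Ev i p * Ev (j - i) q := by
  induction p using Polynomial.induction_on' with
  | add p₁ p₂ h₁ h₂ =>
    rw [add_mul, Ev_add, h₁, h₂, ← Finset.sum_add_distrib]
    refine Finset.sum_congr rfl fun i _ => ?_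
    rw [Ev_add]; ring
  | monomial a c =>
    induction q using Polynomial.induction_on' with
    | add q₁ q₂ h₁ h₂ =>
      rw [mul_add, Ev_add, h₁, h₂, ← Finset.sum_add_distrib]
      refine Finset.sum_congr rfl fun i _ => ?_
      rw [Ev_add]; ring
    | monomial b d =>
      rw [monomial_mul_monomial, Ev_monomial]
      push_cast
      rw [add_pow, Finset.mul_sum]
      refine Finset.sum_congr rfl fun i _ => ?_
      rw [Ev_monomial, Ev_monomial]
      ring

end Pool.Agent.H549R2.TO
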