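import Pool.Agent.H549R2.TO.Defs

namespace Pool.Agent.H549R2.TO

open Polynomial

namespace VT2

lemma list_sum_range (n : ℕ) (f : ℕ → ℕ) :
    ((List.range n).map f).sum = ∑ i ∈ Finset.range n, f i := by
  induction n with
  | zero => simp
  | succ n ih => rw [List.range_succ, List.map_append, List.sum_append, ih,
      Finset.sum_range_succ]; simp

lemma list_prod (Z n : ℕ) :
    ((List.range n).map (fun i => Z + i)).prod = (ascPochhammer ℕ n).eval Z := by
  induction n with
  | zero => simp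
  | succ n ih =>
    rw [List.range_succ, List.map_append, List.prod_append, ih, ascPochhammer_succ_right]
    simp

lemma digit (Z : ℕ) (m : ℕ) : ∀ p : ℕ[X], (∀ i, p.coeff i < Z) →
    (p.eval Z / Z ^ m) % Z = p.coeff m := by
  induction m with
  | zero =>
    intro p hp
    have h : p.eval Z = (divX p).eval Z * Z + p.coeff 0 := by
      conv_lhs => rw [← divX_mul_X_add p]
      simp
    rw [pow_zero, Nat.div_one, h, Nat.mul_add_mod_self_right, Nat.mod_eq_of_lt (hp 0)]
  | succ m ih =>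
    intro p hp
    have h : p.eval Z = (divX p).eval Z * Z + p.coeff 0 := by
      conv_lhs => rw [← divX_mul_X_add p]
      simp
    have hZ : 0 < Z := lt_of_le_of_lt (Nat.zero_le _) (hp 0)
    have h2 := ih (divX p) (fun i => by rw [coeff_divX]; exact hp _)
    rw [coeff_divX] at h2
    rw [← h2, pow_succ', ← Nat.div_div_eq_div_mul, h]
    congr 2
    rw [Nat.add_comm, Nat.add_mul_div_right _ _ hZ, Nat.div_eq_of_lt (hp 0), zero_add]

lemma coeff_lt (K : ℕ) (hK : 1 ≤ K) (i : ℕ) : (ascPochhammer ℕ K).coeff i < 2 ^ (K * K) := by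
  have h1 : (ascPochhammer ℕ K).coeff i ≤ K.factorial := by
    have h0 : K.factorial = (ascPochhammer ℕ K).eval 1 := by
      rw [ascPochhammer_eval_one]; simp
    rw [h0, eval_eq_sum_range]
    by_cases hi : i ≤ (ascPochhammer ℕ K).natDegree
    · have := Finset.single_le_sum
        (f := fun i => (ascPochhammer ℕ K).coeff i * 1 ^ i) (fun j _ => Nat.zero_le _)
        (Finset.mem_range.2 (Nat.lt_succ_of_le hi))
      simpa using this
    · rw [coeff_eq_zero_of_natDegree_lt (by omega)]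
      exact Nat.zero_le _
  have h2 : K.factorial ≤ K ^ K := Nat.factorial_le_pow K
  have h3 : K ^ K < (2 ^ K) ^ K := Nat.pow_lt_pow_left Nat.lt_two_pow_self (by omega)
  rw [pow_mul]
  omega

lemma cc_eq (K : ℕ) (hK : 1 ≤ K) (m : ℕ) : cc K m = (ascPochhammer ℕ K).coeff m := by
  unfold cc
  rw [list_prod, pow_mul 2 (K * K) m]
  exact digit _ m _ (coeff_lt K hK)

lemma neg_one_pow_sub {K m : ℕ} (h : m ≤ K) : (-1 : ℤ) ^ (K - m) = (-1) ^ K * (-1) ^ m := by
  obtain ⟨d, rfl⟩ := Nat.exists_eq_add_of_le h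
  rw [Nat.add_sub_cancel_left, pow_add]
  have : (-1 : ℤ) ^ m * (-1) ^ m = 1 := by rw [← mul_pow]; simp
  calc (-1 : ℤ) ^ d = ((-1 : ℤ) ^ m * (-1) ^ m) * (-1) ^ d := by rw [this, one_mul]
    _ = _ := by ring

lemma alt_sum (K : ℕ) (hK : 1 ≤ K) (a : ℕ) :
    ∑ m ∈ Finset.range (K + 1), (-1 : ℤ) ^ (K - m) * (cc K m : ℤ) * (a : ℤ) ^ m =
      (a.descFactorial K : ℤ) := by
  have h1 : (ascPochhammer ℤ K).eval (-(a : ℤ)) = (-1) ^ K * (a.descFactorial K : ℤ) := by
    rw [ascPochhammer_eval_neg_eq_descPochhammer, descPochhammer_eval_eq_descFactorial]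
  have hdeg : (ascPochhammer ℤ K).natDegree = K := ascPochhammer_natDegree ℤ K
  rw [eval_eq_sum_range, hdeg] at h1
  have h2 : (a.descFactorial K : ℤ) = (-1) ^ K * ((-1) ^ K * (a.descFactorial K : ℤ)) := by
    rw [← mul_assoc, ← mul_pow]; simp
  rw [h2, ← h1, Finset.mul_sum]
  refine Finset.sum_congr rfl fun m hm => ?_
  have hm' : m ≤ K := by
    have := Finset.mem_range.1 hm
    omega
  have h3 : (ascPochhammer ℤ K).coeff m = (cc K m : ℤ) := by
    rw [cc_eq K hK, ← ascPochhammer_map (Nat.castRingHom ℤ) K, coeff_map]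
    simp
  rw [h3, neg_one_pow_sub hm', neg_pow (a : ℤ) m]
  ring

end VT2

open VT2

theorem cc_ev (K : ℕ) (hK : 1 ≤ K) (p : ℤ[X]) (hp : p.natDegree ≤ K) :
    ∑ m ∈ Finset.range (K + 1), (-1 : ℤ) ^ (K - m) * (cc K m : ℤ) * Ev m p =
      (K.factorial : ℤ) * p.coeff K := by
  have h1 : ∀ m, Ev m p = ∑ a ∈ Finset.range (K + 1), p.coeff a * (a : ℤ) ^ m := by
    intro m
    unfold Ev
    rw [sum_over_range' p (fun n => by simp) (K + 1) (by omega)]
  calc ∑ m ∈ Finset.range (K + 1), (-1 : ℤ) ^ (K - m) * (cc K m : ℤ) * Ev m p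
      = ∑ m ∈ Finset.range (K + 1), ∑ a ∈ Finset.range (K + 1),
          p.coeff a * ((-1 : ℤ) ^ (K - m) * (cc K m : ℤ) * (a : ℤ) ^ m) := by
        refine Finset.sum_congr rfl fun m _ => ?_
        rw [h1, Finset.mul_sum]
        refine Finset.sum_congr rfl fun a _ => ?_
        ring
    _ = ∑ a ∈ Finset.range (K + 1), p.coeff a * (a.descFactorial K : ℤ) := by
        rw [Finset.sum_comm]
        refine Finset.sum_congr rfl fun a _ => ?_
        rw [← Finset.mul_sum, alt_sum K hK]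
    _ = _ := by
        rw [Finset.sum_range_succ, Finset.sum_eq_zero, zero_add, Nat.descFactorial_self, mul_comm]
        intro a ha
        rw [Nat.descFactorial_of_lt (Finset.mem_range.1 ha)]
        simp

theorem hsum_eq (K : ℕ) (h : ℕ → ℕ) : ((hsum K h 0 : ℕ) : ℤ) - ((hsum K h 1 : ℕ) : ℤ) =
    ∑ m ∈ Finset.range (K + 1), (-1 : ℤ) ^ (K - m) * (cc K m : ℤ) * (h m : ℤ) := by
  unfold hsum
  rw [list_sum_range, list_sum_range, Nat.cast_sum, Nat.cast_sum, ← Finset.sum_sub_distrib]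
  refine Finset.sum_congr rfl fun m _ => ?_
  rcases Nat.even_or_odd (K - m) with he | ho
  · have h0 : (K - m) % 2 = 0 := Nat.even_iff.1 he
    rw [he.neg_one_pow, h0]
    simp
  · have h0 : (K - m) % 2 = 1 := Nat.odd_iff.1 ho
    rw [ho.neg_one_pow, h0]
    simp

end Pool.Agent.H549R2.TO
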