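import Pool.Agent.H549R2.TO.Defs

namespace Pool.Agent.H549R2.TO

variable {α : Type}

/-- the lists with given left part and given set of right elements -/
def Ins (r : α → α → Bool) (px py : α → Bool) (pa : Bool) (ra : α → Bool) (vs : List α)
    (A : Finset ℕ) (l : List (α ⊕ ℕ)) : Prop :=
  l.filterMap Sum.getLeft? = vs ∧ (l.filterMap Sum.getRight?).Nodup ∧
    (l.filterMap Sum.getRight?).toFinset = A ∧ First pa ra l ∧
    l.IsChain (fun u v => RR r px py u v = true)

namespace T3ax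

theorem split_nil (l : List (α ⊕ ℕ)) (h : l.filterMap Sum.getLeft? = []) :
    ∃ B : List ℕ, l = B.map (Sum.inr : ℕ → α ⊕ ℕ) := by
  induction l with
  | nil => exact ⟨[], rfl⟩
  | cons x l ih =>
    cases x with
    | inl a => simp at h
    | inr i =>
      rw [List.filterMap_cons] at h
      simp only [Sum.getLeft?] at h
      obtain ⟨B, hB⟩ := ih h
      exact ⟨i :: B, by rw [hB]; rfl⟩

theorem split_cons (l : List (α ⊕ ℕ)) (b : α) (vs : List α)
    (h : l.filterMap Sum.getLeft? = b :: vs) :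
    ∃ (B : List ℕ) (l' : List (α ⊕ ℕ)), l = B.map (Sum.inr : ℕ → α ⊕ ℕ) ++ (Sum.inl b : α ⊕ ℕ) :: l' := by
  induction l with
  | nil => simp at h
  | cons x l ih =>
    cases x with
    | inl a =>
      rw [List.filterMap_cons] at h
      simp only [Sum.getLeft?] at h
      have h1 := (List.cons.inj h).1
      exact ⟨[], l, by rw [h1]; rfl⟩
    | inr i =>
      rw [List.filterMap_cons] at h
      simp only [Sum.getLeft?] at h
      obtain ⟨B, l', hB⟩ := ih h
      exact ⟨i :: B, l', by rw [hB]; rfl⟩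

theorem fL (B : List ℕ) (m : List (α ⊕ ℕ)) :
    (B.map (Sum.inr : ℕ → α ⊕ ℕ) ++ m).filterMap Sum.getLeft? = m.filterMap Sum.getLeft? := by
  induction B with
  | nil => rfl
  | cons i B ih =>
    rw [List.map_cons, List.cons_append, List.filterMap_cons]
    exact ih

theorem fR (B : List ℕ) (m : List (α ⊕ ℕ)) :
    (B.map (Sum.inr : ℕ → α ⊕ ℕ) ++ m).filterMap Sum.getRight? = B ++ m.filterMap Sum.getRight? := by
  induction B with
  | nil => rfl
  | cons i B ih =>
    rw [List.map_cons, List.cons_append, List.filterMap_cons, List.cons_append, ← ih]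
    rfl

theorem inj (B₁ B₂ : List ℕ) (b : α) (l₁ l₂ : List (α ⊕ ℕ))
    (h : B₁.map (Sum.inr : ℕ → α ⊕ ℕ) ++ (Sum.inl b : α ⊕ ℕ) :: l₁ = B₂.map (Sum.inr : ℕ → α ⊕ ℕ) ++ (Sum.inl b : α ⊕ ℕ) :: l₂) : B₁ = B₂ ∧ l₁ = l₂ := by
  induction B₁ generalizing B₂ with
  | nil =>
    cases B₂ with
    | nil =>
      simp only [List.map_nil, List.nil_append, List.cons.injEq, true_and] at h
      exact ⟨rfl, h⟩
    | cons j B₂ => simp at h
  | cons i B₁ ih =>
    cases B₂ with
    | nil => simp at h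
    | cons j B₂ =>
      simp only [List.map_cons, List.cons_append, List.cons.injEq, Sum.inr.injEq] at h
      obtain ⟨h1, h2⟩ := ih B₂ h.2
      exact ⟨by rw [h.1, h1], h2⟩

theorem chain_inr (r : α → α → Bool) (px py : α → Bool) (B : List ℕ) :
    (B.map (Sum.inr : ℕ → α ⊕ ℕ)).IsChain (fun u v => RR r px py u v = true) ↔
      B.Pairwise (· < ·) := by
  rw [List.isChain_map]
  simp only [RR, decide_eq_true_eq]
  exact List.isChain_iff_pairwise

theorem chain_inl (r : α → α → Bool) (px py : α → Bool) (b : α) (l : List (α ⊕ ℕ)) :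
    (Sum.inl b :: l).IsChain (fun u v => RR r px py u v = true) ↔
      First (px b) (r b) l ∧ l.IsChain (fun u v => RR r px py u v = true) := by
  cases l with
  | nil => simp [First]
  | cons x l => cases x <;> simp [First, RR]

theorem chain_all (r : α → α → Bool) (px py : α → Bool) (b : α) (B : List ℕ)
    (l : List (α ⊕ ℕ)) :
    (B.map (Sum.inr : ℕ → α ⊕ ℕ) ++ (Sum.inl b : α ⊕ ℕ) :: l).IsChain (fun u v => RR r px py u v = true) ↔
      B.Pairwise (· < ·) ∧ (B = [] ∨ py b = true) ∧ First (px b) (r b) l ∧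
        l.IsChain (fun u v => RR r px py u v = true) := by
  rw [List.isChain_append, chain_inr, chain_inl]
  have h : (∀ x ∈ (B.map (Sum.inr : ℕ → α ⊕ ℕ)).getLast?, ∀ y ∈ (Sum.inl b :: l).head?,
      RR r px py x y = true) ↔ (B = [] ∨ py b = true) := by
    rcases B.eq_nil_or_concat with h | ⟨B', i, h⟩
    · subst h
      simp
    · subst h
      simp [RR]
  rw [h]
  tauto

theorem ins_iff (r : α → α → Bool) (px py : α → Bool) (pa : Bool) (ra : α → Bool)
    (b : α) (vs : List α) (A : Finset ℕ) (B : List ℕ) (l : List (α ⊕ ℕ)) :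
    Ins r px py pa ra (b :: vs) A (B.map (Sum.inr : ℕ → α ⊕ ℕ) ++ (Sum.inl b : α ⊕ ℕ) :: l) ↔
      B.Pairwise (· < ·) ∧ B.toFinset ⊆ A ∧
        (if B.toFinset = ∅ then ra b else pa && py b) = true ∧
        Ins r px py (px b) (r b) vs (A \ B.toFinset) l := by
  have hFirst : First pa ra (B.map (Sum.inr : ℕ → α ⊕ ℕ) ++ (Sum.inl b : α ⊕ ℕ) :: l) ↔
      (if B = [] then ra b else pa) = true := by
    cases B with
    | nil => simp [First]
    | cons i B => simp [First]
  have hB : B.toFinset = ∅ ↔ B = [] := List.toFinset_eq_empty_iff B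
  unfold Ins
  rw [fL, fR, hFirst, chain_all]
  have e1 : (Sum.inl b :: l).filterMap Sum.getLeft? = b :: l.filterMap Sum.getLeft? := by
    rw [List.filterMap_cons]
    rfl
  have e2 : (Sum.inl b :: l).filterMap Sum.getRight? = l.filterMap Sum.getRight? := by
    rw [List.filterMap_cons]
    rfl
  rw [e1, e2, List.nodup_append', List.toFinset_append]
  set R := l.filterMap Sum.getRight? with hR
  have hcond : ((if B = [] then ra b else pa) = true ∧ (B = [] ∨ py b = true)) ↔
      (if B.toFinset = ∅ then ra b else pa && py b) = true := by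
    by_cases h : B = []
    · rw [if_pos h, if_pos (hB.2 h)]
      tauto
    · rw [if_neg h, if_neg (fun h' => h (hB.1 h')), Bool.and_eq_true]
      tauto
  rw [← hcond]
  constructor
  · rintro ⟨h1, ⟨h2, h3, h4⟩, h5, h6, h7, h8, h9, h10⟩
    refine ⟨h7, ?_, ⟨h6, h8⟩, (List.cons.inj h1).2, h3, ?_, h9, h10⟩
    · rw [← h5]
      exact Finset.subset_union_left
    · rw [← h5]
      ext x
      simp only [Finset.mem_sdiff, Finset.mem_union, List.mem_toFinset]
      constructor
      · intro hx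
        exact ⟨Or.inr hx, fun hx' => h4 hx' hx⟩
      · rintro ⟨hx | hx, hx'⟩
        · exact absurd hx hx'
        · exact hx
  · rintro ⟨h7, hs, ⟨h6, h8⟩, h1, h3, h5, h9, h10⟩
    have hd : ∀ x, x ∈ R → x ∉ B := by
      intro x hx hx'
      have : x ∈ R.toFinset := List.mem_toFinset.2 hx
      rw [h5, Finset.mem_sdiff] at this
      exact this.2 (List.mem_toFinset.2 hx')
    refine ⟨by rw [h1], ⟨h7.imp ?_, h3, ?_⟩, ?_, h6, h7, h8, h9, h10⟩
    · intro a b hab
      exact hab.ne
    · intro x hx hx'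
      exact hd x hx' hx
    · rw [h5]
      exact Finset.union_sdiff_of_subset hs

theorem ins_nil_iff (r : α → α → Bool) (px py : α → Bool) (pa : Bool) (ra : α → Bool)
    (A : Finset ℕ) (l : List (α ⊕ ℕ)) :
    Ins r px py pa ra [] A l ↔ l = (A.sort).map (Sum.inr : ℕ → α ⊕ ℕ) ∧ (A = ∅ ∨ pa = true) := by
  constructor
  · rintro ⟨h1, h2, h3, h4, h5⟩
    obtain ⟨B, rfl⟩ := split_nil l h1
    have e := fR B ([] : List (α ⊕ ℕ))
    rw [List.append_nil, List.filterMap_nil, List.append_nil] at e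
    rw [e] at h2 h3
    rw [chain_inr] at h5
    have hs : A.sort = B := by
      rw [← h3]
      exact (List.toFinset_sort (· ≤ ·) h2).2 (h5.imp fun h => h.le)
    rw [hs]
    refine ⟨rfl, ?_⟩
    cases B with
    | nil => left; rw [← h3]; rfl
    | cons i B => right; simpa [First] using h4
  · rintro ⟨h1, h2⟩
    subst h1
    have e := fR A.sort ([] : List (α ⊕ ℕ))
    rw [List.append_nil, List.filterMap_nil, List.append_nil] at e
    have e' := fL A.sort ([] : List (α ⊕ ℕ))
    rw [List.append_nil, List.filterMap_nil] at e'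
    refine ⟨e', ?_, ?_, ?_, ?_⟩
    · rw [e]
      exact A.sort_nodup _
    · rw [e]
      exact A.sort_toFinset _
    · rcases h2 with h2 | h2
      · subst h2
        simp [First]
      · cases h : A.sort with
        | nil => simp [First]
        | cons i B => simpa [First] using h2
    · rw [chain_inr]
      exact (A.sortedLT_sort).pairwise

/-- the index set of the recursion -/
def IS (py : α → Bool) (pa : Bool) (ra : α → Bool) (b : α) (A : Finset ℕ) : Finset (Finset ℕ) :=
  A.powerset.filter fun A₀ => (if A₀ = ∅ then ra b else pa && py b) = true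

/-- insertion of a run -/
def FF (r : α → α → Bool) (px py : α → Bool) (pa : Bool) (ra : α → Bool) (b : α) (vs : List α)
    (A : Finset ℕ) (q : Σ A₀ : {A₀ // A₀ ∈ IS py pa ra b A},
      {l : List (α ⊕ ℕ) // Ins r px py (px b) (r b) vs (A \ A₀.1) l}) :
    {l : List (α ⊕ ℕ) // Ins r px py pa ra (b :: vs) A l} :=
  ⟨(q.1.1.sort).map (Sum.inr : ℕ → α ⊕ ℕ) ++ (Sum.inl b : α ⊕ ℕ) :: q.2.1, by
    rw [ins_iff, Finset.sort_toFinset]
    have h := Finset.mem_filter.1 q.1.2
    exact ⟨(q.1.1.sortedLT_sort).pairwise, Finset.mem_powerset.1 h.1, h.2, q.2.2⟩⟩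

theorem FF_bij (r : α → α → Bool) (px py : α → Bool) (pa : Bool) (ra : α → Bool) (b : α)
    (vs : List α) (A : Finset ℕ) : Function.Bijective (FF r px py pa ra b vs A) := by
  constructor
  · rintro ⟨⟨A₁, h₁⟩, ⟨l₁, k₁⟩⟩ ⟨⟨A₂, h₂⟩, ⟨l₂, k₂⟩⟩ h
    have h' := congrArg Subtype.val h
    obtain ⟨e1, e2⟩ := inj _ _ _ _ _ h'
    have e3 : A₁ = A₂ := by
      have := congrArg List.toFinset e1
      rwa [Finset.sort_toFinset, Finset.sort_toFinset] at this
    simp only at e2
    subst e3 e2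
    rfl
  · rintro ⟨l, hl⟩
    obtain ⟨B, l', rfl⟩ := split_cons l b vs hl.1
    have h := (ins_iff r px py pa ra b vs A B l').1 hl
    obtain ⟨h1, h2, h3, h4⟩ := h
    refine ⟨⟨⟨B.toFinset, Finset.mem_filter.2 ⟨Finset.mem_powerset.2 h2, h3⟩⟩, ⟨l', h4⟩⟩, ?_⟩
    apply Subtype.ext
    show (B.toFinset.sort).map (Sum.inr : ℕ → α ⊕ ℕ) ++ (Sum.inl b : α ⊕ ℕ) :: l' = B.map (Sum.inr : ℕ → α ⊕ ℕ) ++ (Sum.inl b : α ⊕ ℕ) :: l'
    rw [(List.toFinset_sort (· ≤ ·) (h1.imp fun h => h.ne)).2 (h1.imp fun h => h.le)]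

end T3ax

theorem ins_finite (r : α → α → Bool) (px py : α → Bool) (pa : Bool) (ra : α → Bool)
    (vs : List α) (A : Finset ℕ) : Finite {l : List (α ⊕ ℕ) // Ins r px py pa ra vs A l} := by
  induction vs generalizing pa ra A with
  | nil =>
    have : Subsingleton {l : List (α ⊕ ℕ) // Ins r px py pa ra [] A l} := by
      refine ⟨fun a b => Subtype.ext ?_⟩
      rw [((T3ax.ins_nil_iff r px py pa ra A a.1).1 a.2).1,
        ((T3ax.ins_nil_iff r px py pa ra A b.1).1 b.2).1]
    infer_instance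
  | cons b vs ih =>
    have : ∀ A₀ : {A₀ // A₀ ∈ T3ax.IS py pa ra b A},
        Finite {l : List (α ⊕ ℕ) // Ins r px py (px b) (r b) vs (A \ A₀.1) l} :=
      fun A₀ => ih _ _ _
    exact Finite.of_surjective _ (T3ax.FF_bij r px py pa ra b vs A).2

theorem card_ins_nil (r : α → α → Bool) (px py : α → Bool) (pa : Bool) (ra : α → Bool)
    (A : Finset ℕ) : Nat.card {l : List (α ⊕ ℕ) // Ins r px py pa ra [] A l} =
      if A = ∅ then 1 else if pa then 1 else 0 := by
  by_cases h : A = ∅ ∨ pa = true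
  · have h1 : (if A = ∅ then 1 else if pa = true then 1 else 0) = 1 := by
      rcases h with h | h
      · rw [if_pos h]
      · rw [if_pos h]
        split_ifs <;> rfl
    rw [h1, Nat.card_eq_one_iff_unique]
    refine ⟨⟨fun a b => Subtype.ext ?_⟩, ⟨⟨_, (T3ax.ins_nil_iff r px py pa ra A _).2 ⟨rfl, h⟩⟩⟩⟩
    rw [((T3ax.ins_nil_iff r px py pa ra A a.1).1 a.2).1,
      ((T3ax.ins_nil_iff r px py pa ra A b.1).1 b.2).1]
  · have h2 : IsEmpty {l : List (α ⊕ ℕ) // Ins r px py pa ra [] A l} :=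
      ⟨fun a => h ((T3ax.ins_nil_iff r px py pa ra A a.1).1 a.2).2⟩
    push Not at h
    rw [Nat.card_of_isEmpty, if_neg h.1.ne_empty, if_neg h.2]

theorem card_ins_cons (r : α → α → Bool) (px py : α → Bool) (pa : Bool) (ra : α → Bool)
    (b : α) (vs : List α) (A : Finset ℕ) :
    Nat.card {l : List (α ⊕ ℕ) // Ins r px py pa ra (b :: vs) A l} =
      ∑ A₀ ∈ A.powerset, if (if A₀ = ∅ then ra b else pa && py b) = true then
        Nat.card {l : List (α ⊕ ℕ) // Ins r px py (px b) (r b) vs (A \ A₀) l} else 0 := by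
  have : ∀ A₀ : {A₀ // A₀ ∈ T3ax.IS py pa ra b A},
      Finite {l : List (α ⊕ ℕ) // Ins r px py (px b) (r b) vs (A \ A₀.1) l} :=
    fun A₀ => ins_finite _ _ _ _ _ _ _
  rw [← Nat.card_congr (Equiv.ofBijective _ (T3ax.FF_bij r px py pa ra b vs A)), Nat.card_sigma,
    ← Finset.sum_filter]
  exact Finset.sum_coe_sort (T3ax.IS py pa ra b A) (fun A₀ =>
    Nat.card {l : List (α ⊕ ℕ) // Ins r px py (px b) (r b) vs (A \ A₀) l})

end Pool.Agent.H549R2.TO
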