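import Pool.Agent.H549R2.TO.T1
import Pool.Agent.H549R2.TO.T3a

namespace Pool.Agent.H549R2.TO

variable {α : Type}

theorem card_ins (r : α → α → Bool) (px py : α → Bool) (vs : List α) (pa : Bool) (ra : α → Bool)
    (A : Finset ℕ) : ((Nat.card {l : List (α ⊕ ℕ) // Ins r px py pa ra vs A l} : ℕ) : ℤ) =
      Ev A.card (PP r px py pa ra vs) := by
  induction vs generalizing pa ra A with
  | nil =>
    rw [card_ins_nil, PP, Ev_gapP]
    by_cases hA : A = ∅
    · have hA' : A.card = 0 := by rw [hA]; rfl
      rw [if_pos hA, if_pos hA']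
      simp
    · have hA' : ¬ A.card = 0 := by rwa [Finset.card_eq_zero]
      rw [if_neg hA, if_neg hA']
      cases pa <;> simp
  | cons b vs ih =>
    rw [card_ins_cons, PP, Ev_mul]
    push_cast
    have h1 : ∀ A₀ ∈ A.powerset, (if (if A₀ = ∅ then ra b else pa && py b) = true then
        ((Nat.card {l : List (α ⊕ ℕ) // Ins r px py (px b) (r b) vs (A \ A₀) l} : ℕ) : ℤ) else 0) =
        (fun m : ℕ => Ev m (gapP (pa && py b) (ra b)) *
          Ev (A.card - m) (PP r px py (px b) (r b) vs)) A₀.card := by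
      intro A₀ hA₀
      rw [Finset.mem_powerset] at hA₀
      simp only
      rw [ih, Finset.card_sdiff_of_subset hA₀, Ev_gapP]
      by_cases h0 : A₀ = ∅
      · rw [if_pos h0, if_pos (show A₀.card = 0 by rw [h0]; rfl)]
        cases ra b <;> simp
      · rw [if_neg h0, if_neg (show ¬ A₀.card = 0 by rwa [Finset.card_eq_zero])]
        cases (pa && py b) <;> simp
    have h2 := Finset.sum_powerset_apply_card (x := A) (fun m : ℕ =>
      Ev m (gapP (pa && py b) (ra b)) * Ev (A.card - m) (PP r px py (px b) (r b) vs))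
    rw [Finset.sum_congr rfl h1]
    refine h2.trans ?_
    refine Finset.sum_congr rfl fun i _ => ?_
    rw [nsmul_eq_mul, mul_assoc]

end Pool.Agent.H549R2.TO
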